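import Mathlib

/-!
# The cross-polytope is not the worst body for zonoid approximation (MP_99e7cc_gt)

For an origin-symmetric convex body `K ⊆ ℝⁿ` let `λ(K)` be the least `λ ≥ 1` such that
`K ⊆ Z ⊆ λ K` for some zonoid `Z`.  We show: for `n = 4^t`, `t ≥ 6`, there is an origin-symmetric
convex body `K ⊆ ℝⁿ` with `λ(K) ≥ √n - 10` and `λ(K) > λ(C_n)`, `C_n` the cross-polytope.

Idea.  Let `F` be the Kerdock family of `n/2` mutually unbiased orthonormal bases of `ℝⁿ`
(`n²/2` unit vectors, `|⟪f,f'⟫| ≤ 1/√n` for `f ≠ f'`), constructed from the alternating forms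
`tr(a²xy) + tr(ax)tr(ay) + s tr(ay) + u tr(ax)` on `F_{2^m} × F_2`, `m` odd.  A random splitting
`F = W ∪ B` satisfies (contraction principle) `|∑_W |⟪w,v⟫| - ∑_B |⟪b,v⟫|| ≤ 2 √|F| ‖v‖` for all
`v`, while fourth moments give `∑_F |⟪f,v⟫| ≥ n^{3/2}/√12 ‖v‖`.  So
`∑_W |⟪w,v⟫| ≤ (1+o(1)) ∑_B |⟪b,v⟫|` for all `v`, hence the same inequality for the (symmetrised)
support function of every zonoid.  For `K = conv (± W)` one has `h_K(w) ≥ 1`, `h_K(b) ≤ 1/√n`,
so `λ(K) ≥ (1-o(1)) √n`.  John's theorem gives `λ(K) ≤ √n` for all `K`, while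
`λ(C_n) ≤ E|ε_1+…+ε_n| ≤ √(2n/3)`.
-/

set_option autoImplicit false
open scoped Pointwise
open Filter Topology

namespace Pool.Agent.Results.MP_99e7cc_gt.CrossPolytopeNotExtremal

/-- A zonotope: a finite Minkowski sum of line segments. -/
def IsZonotope {E : Type*} [NormedAddCommGroup E] [InnerProductSpace ℝ E] (Z : Set E) : Prop :=
  ∃ (m : ℕ) (a b : Fin m → E), Z = ∑ i, segment ℝ (a i) (b i)

/-- A zonoid: a nonempty compact set that is a Hausdorff limit of zonotopes. -/
def IsZonoid {E : Type*} [NormedAddCommGroup E] [InnerProductSpace ℝ E] (Z : Set E) : Prop :=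
  IsCompact Z ∧ Z.Nonempty ∧
    ∃ P : ℕ → Set E, (∀ k, IsZonotope (P k)) ∧
      Tendsto (fun k => Metric.hausdorffDist (P k) Z) atTop (𝓝 0)

/-- Origin-symmetric convex bodies. -/
def IsSymmBody {E : Type*} [NormedAddCommGroup E] [InnerProductSpace ℝ E] (K : Set E) : Prop :=
  IsCompact K ∧ Convex ℝ K ∧ (interior K).Nonempty ∧ ∀ x ∈ K, -x ∈ K

/-- The numbers `c ≥ 1` for which some zonoid `Z` satisfies `K ⊆ Z ⊆ c K`. -/
def zonoidRatios {E : Type*} [NormedAddCommGroup E] [InnerProductSpace ℝ E]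
    (K : Set E) : Set ℝ :=
  {c : ℝ | 1 ≤ c ∧ ∃ Z : Set E, IsZonoid Z ∧ K ⊆ Z ∧ Z ⊆ c • K}

/-- The zonoid approximation constant `λ(K)`. -/
noncomputable def zonoidConst {E : Type*} [NormedAddCommGroup E] [InnerProductSpace ℝ E]
    (K : Set E) : ℝ :=
  sInf (zonoidRatios K)

/-- The cross-polytope `conv {± e_i}`. -/
def crossPolytope (n : ℕ) : Set (EuclideanSpace ℝ (Fin n)) :=
  convexHull ℝ {x | ∃ i : Fin n, x = EuclideanSpace.single i (1 : ℝ) ∨
    x = -EuclideanSpace.single i (1 : ℝ)}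

/-- Mutually unbiased orthonormal bases. -/
def IsMUB {n R : ℕ} (f : Fin R → Fin n → EuclideanSpace ℝ (Fin n)) : Prop :=
  (∀ r i j, inner ℝ (f r i) (f r j) = if i = j then (1 : ℝ) else 0) ∧
  (∀ r s i j, r ≠ s → (inner ℝ (f r i) (f s j)) ^ 2 = (1 / n : ℝ))

/-! ### the contraction principle -/
section signing

/-- sign of a boolean -/
def sgA (b : Bool) : ℝ := if b then 1 else -1

lemma sgA_not (b : Bool) : sgA (!b) = -sgA b := by cases b <;> simp [sgA]

lemma sgA_eq (b : Bool) : sgA b = 1 ∨ sgA b = -1 := by cases b <;> simp [sgA]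

lemma bdd_of {S : Type*} {H : S → ℝ} (h : ∃ B, ∀ v, |H v| ≤ B) : BddAbove (Set.range H) := by
  obtain ⟨B, hB⟩ := h
  refine ⟨B, ?_⟩
  rintro _ ⟨v, rfl⟩
  exact (le_abs_self _).trans (hB v)

lemma bd_add {S : Type*} {H K : S → ℝ} (h : ∃ B, ∀ v, |H v| ≤ B) (k : ∃ B, ∀ v, |K v| ≤ B) :
    ∃ B, ∀ v, |H v + K v| ≤ B := by
  obtain ⟨B, hB⟩ := h
  obtain ⟨C, hC⟩ := k
  exact ⟨B + C, fun v => (abs_add_le _ _).trans (add_le_add (hB v) (hC v))⟩

lemma bd_mul {S : Type*} {K : S → ℝ} (c : ℝ) (k : ∃ B, ∀ v, |K v| ≤ B) :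
    ∃ B, ∀ v, |c * K v| ≤ B := by
  obtain ⟨C, hC⟩ := k
  refine ⟨|c| * C, fun v => ?_⟩
  rw [abs_mul]
  exact mul_le_mul_of_nonneg_left (hC v) (abs_nonneg c)

lemma bd_sum {S ι : Type*} (s : Finset ι) {K : ι → S → ℝ} (k : ∀ i, ∃ B, ∀ v, |K i v| ≤ B) :
    ∃ B, ∀ v, |∑ i ∈ s, K i v| ≤ B := by
  choose C hC using k
  exact ⟨∑ i ∈ s, C i, fun v => (Finset.abs_sum_le_sum_abs _ _).trans
    (Finset.sum_le_sum fun i _ => hC i v)⟩

lemma bd_abs {S : Type*} {K : S → ℝ} (k : ∃ B, ∀ v, |K v| ≤ B) :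
    ∃ B, ∀ v, abs |K v| ≤ B := by
  obtain ⟨C, hC⟩ := k
  exact ⟨C, fun v => by rw [abs_abs]; exact hC v⟩

lemma two_point {S : Type*} [Nonempty S] (H y : S → ℝ) (hH : ∃ B, ∀ v, |H v| ≤ B)
    (hy : ∃ B, ∀ v, |y v| ≤ B) :
    (⨆ v, (H v + sgA true * |y v|)) + (⨆ v, (H v + sgA false * |y v|)) ≤
      (⨆ v, (H v + sgA true * y v)) + ⨆ v, (H v + sgA false * y v) := by
  apply ciSup_add_ciSup_le
  intro v w
  have b1 := bdd_of (bd_add hH (bd_mul (sgA true) hy))
  have b2 := bdd_of (bd_add hH (bd_mul (sgA false) hy))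
  have v1 := le_ciSup b1 v
  have v2 := le_ciSup b2 v
  have w1 := le_ciSup b1 w
  have w2 := le_ciSup b2 w
  have h1 := abs_sub_abs_le_abs_sub (y v) (y w)
  simp only [sgA, if_true, Bool.false_eq_true, if_false] at *
  rcases abs_cases (y v - y w) with ⟨h, -⟩ | ⟨h, -⟩
  · linarith
  · linarith

lemma sum_cons {m : ℕ} (F : (Fin (m + 1) → Bool) → ℝ) :
    ∑ ε, F ε = ∑ b : Bool, ∑ ε' : Fin m → Bool, F (Fin.cons b ε') := by
  rw [← Fintype.sum_prod_type']
  exact (Equiv.sum_comp (Fin.consEquiv (fun _ => Bool)) F).symm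

theorem contraction {S : Type*} [Nonempty S] (m : ℕ) : ∀ (G : S → ℝ) (x : Fin m → S → ℝ),
    (∃ B, ∀ v, |G v| ≤ B) → (∀ i, ∃ B, ∀ v, |x i v| ≤ B) →
    ∑ ε : Fin m → Bool, (⨆ v, (G v + ∑ i, sgA (ε i) * |x i v|)) ≤
      ∑ ε : Fin m → Bool, ⨆ v, (G v + ∑ i, sgA (ε i) * x i v) := by
  induction m with
  | zero =>
    intro G x _ _
    simp
  | succ m ih =>
    intro G x hG hx
    rw [sum_cons, sum_cons]
    simp only [Fin.sum_univ_succ, Fin.cons_zero, Fin.cons_succ]
    calc ∑ b : Bool, ∑ ε' : Fin m → Bool,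
          ⨆ v, (G v + (sgA b * |x 0 v| + ∑ i : Fin m, sgA (ε' i) * |x i.succ v|))
        = ∑ b : Bool, ∑ ε' : Fin m → Bool,
          ⨆ v, ((G v + sgA b * |x 0 v|) + ∑ i : Fin m, sgA (ε' i) * |x i.succ v|) := by
          simp only [add_assoc]
      _ ≤ ∑ b : Bool, ∑ ε' : Fin m → Bool,
          ⨆ v, ((G v + sgA b * |x 0 v|) + ∑ i : Fin m, sgA (ε' i) * x i.succ v) := by
          refine Finset.sum_le_sum fun b _ => ?_
          exact ih (fun v => G v + sgA b * |x 0 v|) (fun i => x i.succ)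
            (bd_add hG (bd_mul _ (bd_abs (hx 0)))) (fun i => hx i.succ)
      _ = ∑ ε' : Fin m → Bool, ∑ b : Bool,
          ⨆ v, ((G v + ∑ i : Fin m, sgA (ε' i) * x i.succ v) + sgA b * |x 0 v|) := by
          rw [Finset.sum_comm]
          refine Finset.sum_congr rfl fun ε' _ => Finset.sum_congr rfl fun b _ => ?_
          congr 1
          funext v
          ring
      _ ≤ ∑ ε' : Fin m → Bool, ∑ b : Bool,
          ⨆ v, ((G v + ∑ i : Fin m, sgA (ε' i) * x i.succ v) + sgA b * x 0 v) := by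
          refine Finset.sum_le_sum fun ε' _ => ?_
          rw [Fintype.sum_bool, Fintype.sum_bool]
          exact two_point _ _ (bd_add hG (bd_sum _ fun i => bd_mul _ (hx i.succ))) (hx 0)
      _ = _ := by
          rw [Finset.sum_comm]
          refine Finset.sum_congr rfl fun ε' _ => Finset.sum_congr rfl fun b _ => ?_
          congr 1
          funext v
          ring

theorem sum_norm_sq {E : Type*} [NormedAddCommGroup E] [InnerProductSpace ℝ E] (m : ℕ) :
    ∀ (g : E) (f : Fin m → E), ∑ ε : Fin m → Bool, ‖g + ∑ i, sgA (ε i) • f i‖ ^ 2 =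
      2 ^ m * (‖g‖ ^ 2 + ∑ i, ‖f i‖ ^ 2) := by
  induction m with
  | zero =>
    intro g f
    simp
  | succ m ih =>
    intro g f
    rw [sum_cons]
    simp only [Fin.sum_univ_succ, Fin.cons_zero, Fin.cons_succ]
    have h1 : ∀ b : Bool, ∑ ε' : Fin m → Bool,
        ‖g + (sgA b • f 0 + ∑ i : Fin m, sgA (ε' i) • f i.succ)‖ ^ 2 =
        2 ^ m * (‖g + sgA b • f 0‖ ^ 2 + ∑ i : Fin m, ‖f i.succ‖ ^ 2) := by
      intro b
      rw [← ih (g + sgA b • f 0) (fun i => f i.succ)]
      simp only [add_assoc]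
    simp only [h1]
    rw [Fintype.sum_bool]
    have h2 := parallelogram_law_with_norm ℝ g (f 0)
    simp only [sgA, if_true, Bool.false_eq_true, if_false, one_smul, neg_smul, ← sub_eq_add_neg]
    rw [pow_succ]
    linear_combination (2 ^ m) * h2

end signing

/-- Contraction principle + Cauchy-Schwarz: a balanced signing of a finite family of unit vectors -/
theorem exists_signing {E : Type*} [NormedAddCommGroup E] [InnerProductSpace ℝ E]
    {m : ℕ} (f : Fin m → E) (hf : ∀ i, ‖f i‖ = 1) :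
    ∃ σ : Fin m → ℝ, (∀ i, σ i = 1 ∨ σ i = -1) ∧ 0 ≤ ∑ i, σ i ∧
      ∀ v : E, abs (∑ i, σ i * |inner ℝ (f i) v|) ≤ 2 * Real.sqrt m * ‖v‖ := by
  classical
  let S := {v : E // ‖v‖ ≤ 1}
  have : Nonempty S := ⟨⟨0, by simp⟩⟩
  let x : Fin m → S → ℝ := fun i v => inner ℝ (f i) (v : E)
  have hx : ∀ i, ∃ B, ∀ v, |x i v| ≤ B := by
    intro i
    refine ⟨1, fun v => ?_⟩
    calc |x i v| ≤ ‖f i‖ * ‖(v : E)‖ := abs_real_inner_le_norm _ _
      _ ≤ 1 * 1 := by
          rw [hf i]
          exact mul_le_mul_of_nonneg_left v.2 zero_le_one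
      _ = 1 := one_mul 1
  have h0 : ∃ B, ∀ v : S, |(0 : ℝ)| ≤ B := ⟨0, fun v => by simp⟩
  let D : (Fin m → Bool) → ℝ := fun ε => ⨆ v, ((0 : ℝ) + ∑ i, sgA (ε i) * |x i v|)
  have hDle : ∀ ε (v : E), ‖v‖ ≤ 1 → ∑ i, sgA (ε i) * |inner ℝ (f i) v| ≤ D ε := by
    intro ε v hv
    have hb : BddAbove (Set.range fun v : S => ((0 : ℝ) + ∑ i, sgA (ε i) * |x i v|)) :=
      bdd_of (bd_add h0 (bd_sum _ fun i => bd_mul _ (bd_abs (hx i))))
    have := le_ciSup hb ⟨v, hv⟩
    rw [zero_add] at this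
    exact this
  have hD0 : ∀ ε, 0 ≤ D ε := by
    intro ε
    have := hDle ε 0 (by simp)
    simpa using this
  have hDsum : ∑ ε, D ε ≤ 2 ^ m * Real.sqrt m := by
    refine (contraction m (fun _ => (0 : ℝ)) x h0 hx).trans ?_
    have h1 : ∀ ε : Fin m → Bool, (⨆ v, ((0 : ℝ) + ∑ i, sgA (ε i) * x i v)) ≤
        ‖∑ i, sgA (ε i) • f i‖ := by
      intro ε
      refine ciSup_le fun v => ?_
      have h2 : (0 : ℝ) + ∑ i, sgA (ε i) * x i v = inner ℝ (∑ i, sgA (ε i) • f i) (v : E) := by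
        rw [zero_add, sum_inner]
        refine Finset.sum_congr rfl fun i _ => ?_
        rw [real_inner_smul_left]
      rw [h2]
      refine (real_inner_le_norm _ _).trans ?_
      exact mul_le_of_le_one_right (norm_nonneg _) v.2
    refine (Finset.sum_le_sum fun ε _ => h1 ε).trans ?_
    have h2 := sum_norm_sq m (0 : E) f
    simp only [zero_add, norm_zero, hf, one_pow, Finset.sum_const, Finset.card_univ,
      Fintype.card_fin, nsmul_eq_mul, mul_one] at h2
    have h3 : (∑ ε : Fin m → Bool, ‖∑ i, sgA (ε i) • f i‖) ^ 2 ≤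
        (Finset.univ : Finset (Fin m → Bool)).card *
          ∑ ε : Fin m → Bool, ‖∑ i, sgA (ε i) • f i‖ ^ 2 := sq_sum_le_card_mul_sum_sq
    have h4 : (Finset.univ : Finset (Fin m → Bool)).card = 2 ^ m := by
      simp
    rw [h2, h4] at h3
    have h5 : (2 ^ m * Real.sqrt m) ^ 2 = ((2 ^ m : ℕ) : ℝ) * (2 ^ m * (0 ^ 2 + (m : ℝ))) := by
      rw [mul_pow, Real.sq_sqrt (Nat.cast_nonneg m)]
      push_cast
      ring
    rw [← h5] at h3
    exact (pow_le_pow_iff_left₀ (Finset.sum_nonneg fun _ _ => norm_nonneg _) (by positivity)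
      two_ne_zero).mp h3
  have hflip : ∑ ε : Fin m → Bool, D (fun i => !ε i) = ∑ ε, D ε := by
    let e : (Fin m → Bool) ≃ (Fin m → Bool) :=
      { toFun := fun ε i => !ε i, invFun := fun ε i => !ε i,
        left_inv := fun ε => by funext i; simp, right_inv := fun ε => by funext i; simp }
    exact Equiv.sum_comp e D
  obtain ⟨ε, -, hε⟩ : ∃ ε ∈ (Finset.univ : Finset (Fin m → Bool)),
      D ε + D (fun i => !ε i) ≤ 2 * Real.sqrt m := by
    apply Finset.exists_le_of_sum_le Finset.univ_nonempty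
    rw [Finset.sum_add_distrib, hflip, Finset.sum_const, Finset.card_univ, nsmul_eq_mul]
    have h4 : Fintype.card (Fin m → Bool) = 2 ^ m := by simp
    rw [h4]
    push_cast
    linarith
  have hmain : ∀ v : E, abs (∑ i, sgA (ε i) * |inner ℝ (f i) v|) ≤ 2 * Real.sqrt m * ‖v‖ := by
    have hunit : ∀ v : E, ‖v‖ ≤ 1 →
        abs (∑ i, sgA (ε i) * |inner ℝ (f i) v|) ≤ 2 * Real.sqrt m := by
      intro v hv
      have a1 := hDle ε v hv
      have a2 := hDle (fun i => !ε i) v hv
      have a3 := hD0 ε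
      have a4 := hD0 (fun i => !ε i)
      have a5 : ∑ i, sgA (!ε i) * |inner ℝ (f i) v| = -∑ i, sgA (ε i) * |inner ℝ (f i) v| := by
        rw [← Finset.sum_neg_distrib]
        refine Finset.sum_congr rfl fun i _ => ?_
        rw [sgA_not, neg_mul]
      rw [a5] at a2
      rw [abs_le]
      constructor <;> linarith
    intro v
    rcases eq_or_ne v 0 with hv | hv
    · rw [hv]
      simp
    · have hpos : 0 < ‖v‖ := norm_pos_iff.mpr hv
      have h1 := hunit (‖v‖⁻¹ • v) (by
        rw [norm_smul, norm_inv, norm_norm, inv_mul_cancel₀ hpos.ne'])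
      have h2 : ∑ i, sgA (ε i) * |inner ℝ (f i) (‖v‖⁻¹ • v)| =
          ‖v‖⁻¹ * ∑ i, sgA (ε i) * |inner ℝ (f i) v| := by
        rw [Finset.mul_sum]
        refine Finset.sum_congr rfl fun i _ => ?_
        rw [real_inner_smul_right, abs_mul, abs_of_pos (inv_pos.mpr hpos)]
        ring
      rw [h2, abs_mul, abs_of_pos (inv_pos.mpr hpos), inv_mul_le_iff₀ hpos] at h1
      linarith
  rcases le_or_gt 0 (∑ i, sgA (ε i)) with h | h
  · exact ⟨fun i => sgA (ε i), fun i => sgA_eq _, h, hmain⟩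
  · refine ⟨fun i => -sgA (ε i), fun i => ?_, ?_, ?_⟩
    · rcases sgA_eq (ε i) with h | h
      · right
        show -sgA (ε i) = -1
        rw [h]
      · left
        show -sgA (ε i) = 1
        rw [h, neg_neg]
    · rw [Finset.sum_neg_distrib]
      linarith
    · intro v
      have : ∑ i, -sgA (ε i) * |inner ℝ (f i) v| = -∑ i, sgA (ε i) * |inner ℝ (f i) v| := by
        rw [← Finset.sum_neg_distrib]
        exact Finset.sum_congr rfl fun i _ => neg_mul _ _
      rw [this, abs_neg]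
      exact hmain v


/-! ### Kerdock forms -/

/-- the Kerdock alternating forms are pairwise nonsingular (`m` odd) -/
noncomputable def kform {m : ℕ} (a : GaloisField 2 m) (X Y : GaloisField 2 m × ZMod 2) : ZMod 2 :=
  Algebra.trace (ZMod 2) (GaloisField 2 m) (a ^ 2 * X.1 * Y.1) +
    Algebra.trace (ZMod 2) (GaloisField 2 m) (a * X.1) *
      Algebra.trace (ZMod 2) (GaloisField 2 m) (a * Y.1) +
    X.2 * Algebra.trace (ZMod 2) (GaloisField 2 m) (a * Y.1) +
    Y.2 * Algebra.trace (ZMod 2) (GaloisField 2 m) (a * X.1)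

theorem tr_sq {m : ℕ} (z : GaloisField 2 m) :
    Algebra.trace (ZMod 2) (GaloisField 2 m) (z ^ 2) =
      Algebra.trace (ZMod 2) (GaloisField 2 m) z := by
  have h := Algebra.trace_eq_of_algEquiv
    (FiniteField.frobeniusAlgEquivOfAlgebraic (ZMod 2) (GaloisField 2 m)) z
  rw [FiniteField.coe_frobeniusAlgEquivOfAlgebraic] at h
  simpa [ZMod.card] using h

theorem z2 (c : ZMod 2) : c = 0 ∨ c = 1 := by
  revert c
  decide

theorem kform_self {m : ℕ} (hm : Odd m) (a : GaloisField 2 m) (X : GaloisField 2 m × ZMod 2) :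
    kform a X X = 0 := by
  unfold kform
  have h1 : a ^ 2 * X.1 * X.1 = (a * X.1) ^ 2 := by ring
  rw [h1, tr_sq]
  generalize Algebra.trace (ZMod 2) (GaloisField 2 m) (a * X.1) = c
  generalize X.2 = d
  revert c d
  decide

theorem kform_nondeg {m : ℕ} (hm : Odd m) (a b : GaloisField 2 m) (hab : a ≠ b)
    (X : GaloisField 2 m × ZMod 2) (hX : X ≠ 0) :
    ∃ Y, kform a X Y + kform b X Y = 1 := by
  by_contra hcon
  push Not at hcon
  have h0 : ∀ Y, kform a X Y + kform b X Y = 0 := fun Y => (z2 _).resolve_right (hcon Y)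
  obtain ⟨x, s⟩ := X
  have hm0 : m ≠ 0 := by
    rintro rfl
    simp at hm
  have h2 : ∀ z : ZMod 2, z + z = 0 := by decide
  have hchar : CharP (GaloisField 2 m) 2 := inferInstance
  have h2L : ∀ z : GaloisField 2 m, z + z = 0 := fun z => CharTwo.add_self_eq_zero z
  set T := Algebra.trace (ZMod 2) (GaloisField 2 m) with hT
  have e1 : T (a * x) = T (b * x) := by
    have := h0 (0, 1)
    simp only [kform, mul_zero, map_zero, zero_add, add_zero, one_mul] at this
    rw [← hT] at this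
    have h3 := h2 (T (b * x))
    linear_combination this - h3
  set c := T (a * x) with hc
  have e2 : ∀ y, T (((a ^ 2 + b ^ 2) * x + algebraMap (ZMod 2) _ (c + s) * (a + b)) * y) = 0 := by
    intro y
    have h3 := h0 (y, 0)
    simp only [kform] at h3
    rw [← hT] at h3
    have h4 : ((a ^ 2 + b ^ 2) * x + algebraMap (ZMod 2) _ (c + s) * (a + b)) * y =
      a ^ 2 * x * y + b ^ 2 * x * y + (c + s) • (a * y) + (c + s) • (b * y) := by
      rw [Algebra.smul_def, Algebra.smul_def]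
      ring
    rw [h4, map_add, map_add, map_add, map_smul, map_smul, smul_eq_mul, smul_eq_mul]
    rw [← e1, ← hc] at h3
    linear_combination h3
  have e3 : (a ^ 2 + b ^ 2) * x + algebraMap (ZMod 2) _ (c + s) * (a + b) = 0 := by
    have hnd := traceForm_nondegenerate (ZMod 2) (GaloisField 2 m)
    apply hnd.1
    intro y
    rw [Algebra.traceForm_apply]
    exact e2 y
  have hab' : a + b ≠ 0 := by
    intro h
    apply hab
    have h3 := h2L b
    linear_combination h - h3
  have e4 : (a + b) * x = algebraMap (ZMod 2) _ (c + s) := by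
    have h3 : (a + b) * ((a + b) * x - algebraMap (ZMod 2) _ (c + s)) = 0 := by
      have h5 := h2L (a * b * x)
      have h6 := h2L (algebraMap (ZMod 2) (GaloisField 2 m) (c + s) * (a + b))
      linear_combination e3 + h5 - h6
    rcases mul_eq_zero.1 h3 with h | h
    · exact absurd h hab'
    · exact sub_eq_zero.1 h
  have e5 : c + s = 0 := by
    have h3 := congrArg T e4
    rw [hT, Algebra.trace_algebraMap, GaloisField.finrank 2 hm0, ← hT, add_mul, map_add, ← e1,
      h2, nsmul_eq_mul] at h3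
    obtain ⟨k, rfl⟩ := hm
    have h4 : ((2 * k + 1 : ℕ) : ZMod 2) = 1 := by
      push_cast
      have : (2 : ZMod 2) = 0 := rfl
      rw [this]
      ring
    rw [h4, one_mul] at h3
    exact h3.symm
  have e6 : x = 0 := by
    rw [e5, map_zero] at e4
    exact (mul_eq_zero.1 e4).resolve_left hab'
  have e7 : s = 0 := by
    have : c = 0 := by rw [hc, e6, mul_zero, map_zero]
    rw [this, zero_add] at e5
    exact e5
  apply hX
  rw [e6, e7]
  rfl


/-! ### quadratic forms and Gauss sums -/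

/-- the sign character of `ZMod 2` -/
noncomputable def sg (a : ZMod 2) : ℝ := if a = 0 then 1 else -1


theorem zmod2_cases (a : ZMod 2) : a = 0 ∨ a = 1 := by
  revert a; decide

theorem sg_add (a b : ZMod 2) : sg (a + b) = sg a * sg b := by
  rcases zmod2_cases a with rfl | rfl <;> rcases zmod2_cases b with rfl | rfl
  · simp [sg]
  · simp [sg]
  · simp [sg]
  · have : (1 : ZMod 2) + 1 = 0 := by decide
    rw [this]
    simp [sg]

/-- quadratic refinement of an alternating form over `ZMod 2` -/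
theorem exists_quad {V : Type} [AddCommGroup V] [Module (ZMod 2) V] [Fintype V]
    (B : V →ₗ[ZMod 2] V →ₗ[ZMod 2] ZMod 2) (hB : ∀ x, B x x = 0) :
    ∃ q : V → ZMod 2, ∀ x y, q (x + y) = q x + q y + B x y := by
  classical
  have : Module.Finite (ZMod 2) V := Module.Finite.of_finite
  let b := Module.finBasis (ZMod 2) V
  have hsym : ∀ x y, B x y + B y x = 0 := by
    intro x y
    have h := hB (x + y)
    rw [map_add, map_add, LinearMap.add_apply, LinearMap.add_apply, hB, hB] at h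
    rw [← h]; ring
  let C : V → V → ZMod 2 := fun x y => ∑ i, ∑ j, if i < j then b.repr x i * b.repr y j * B (b i) (b j) else 0
  have hBxy : ∀ x y, B x y = ∑ i, ∑ j, b.repr x i * b.repr y j * B (b i) (b j) := by
    intro x y
    calc B x y = B (∑ i, b.repr x i • b i) (∑ j, b.repr y j • b j) := by rw [b.sum_repr, b.sum_repr]
      _ = _ := by
        rw [map_sum B, LinearMap.sum_apply]
        apply Finset.sum_congr rfl
        intro i _
        rw [map_sum]
        apply Finset.sum_congr rfl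
        intro j _
        rw [map_smul, map_smul, LinearMap.smul_apply, smul_eq_mul, smul_eq_mul]
        ring
  have hC : ∀ x y, C x y + C y x = B x y := by
    intro x y
    have h1 : C y x = ∑ i, ∑ j, if j < i then b.repr y j * b.repr x i * B (b j) (b i) else 0 := by
      show (∑ i, ∑ j, if i < j then b.repr y i * b.repr x j * B (b i) (b j) else 0) = _
      rw [Finset.sum_comm]
    rw [h1, hBxy]
    show (∑ i, ∑ j, if i < j then b.repr x i * b.repr y j * B (b i) (b j) else 0) + _ = _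
    rw [← Finset.sum_add_distrib]
    apply Finset.sum_congr rfl
    intro i _
    rw [← Finset.sum_add_distrib]
    apply Finset.sum_congr rfl
    intro j _
    rcases lt_trichotomy i j with h | h | h
    · rw [if_pos h, if_neg (not_lt.2 h.le), add_zero]
    · subst h
      rw [if_neg (lt_irrefl _), if_neg (lt_irrefl _), hB]
      ring
    · rw [if_neg (not_lt.2 h.le), if_pos h, zero_add]
      have h2 : B (b j) (b i) = B (b i) (b j) := by
        have h3 := hsym (b i) (b j)
        rcases zmod2_cases (B (b j) (b i)) with h4 | h4 <;> rcases zmod2_cases (B (b i) (b j)) with h5 | h5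
        · rw [h4, h5]
        · rw [h4, h5] at h3; exact absurd h3 (by decide)
        · rw [h4, h5] at h3; exact absurd h3 (by decide)
        · rw [h4, h5]
      rw [h2]
      ring
  refine ⟨fun x => C x x, ?_⟩
  intro x y
  have h1 : C (x + y) (x + y) = C x x + C x y + C y x + C y y := by
    show (∑ i, ∑ j, if i < j then b.repr (x + y) i * b.repr (x + y) j * B (b i) (b j) else 0) =
      (∑ i, ∑ j, if i < j then b.repr x i * b.repr x j * B (b i) (b j) else 0) +
      (∑ i, ∑ j, if i < j then b.repr x i * b.repr y j * B (b i) (b j) else 0) +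
      (∑ i, ∑ j, if i < j then b.repr y i * b.repr x j * B (b i) (b j) else 0) +
      (∑ i, ∑ j, if i < j then b.repr y i * b.repr y j * B (b i) (b j) else 0)
    simp only [← Finset.sum_add_distrib]
    apply Finset.sum_congr rfl
    intro i _
    apply Finset.sum_congr rfl
    intro j _
    split_ifs
    · rw [map_add, Finsupp.add_apply, Finsupp.add_apply]
      ring
    · ring
  show C (x + y) (x + y) = C x x + C y y + B x y
  rw [h1, ← hC x y]
  ring

/-- Gauss sum of a nonsingular quadratic form -/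
theorem gauss_sum_sq {V : Type} [AddCommGroup V] [Module (ZMod 2) V] [Fintype V]
    (B : V → V → ZMod 2) (hB : ∀ x y z, B (x + y) z = B x z + B y z)
    (hB' : ∀ x, x ≠ 0 → ∃ y, B y x = 1) (q : V → ZMod 2)
    (hq : ∀ x y, q (x + y) = q x + q y + B x y) :
    (∑ x, sg (q x)) ^ 2 = Fintype.card V := by
  classical
  have hdbl : ∀ a : ZMod 2, a + a = 0 := by decide
  have h00 : B 0 0 = 0 := by
    have := hB 0 0 0
    rw [add_zero, hdbl] at this
    exact this
  have hq0 : q 0 = 0 := by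
    have h := hq 0 0
    rw [add_zero, hdbl, h00, add_zero] at h
    exact h
  have hx0 : ∀ x, B x 0 = 0 := by
    intro x
    have h := hq x 0
    rw [add_zero, hq0, add_zero] at h
    have h2 : q x + 0 = q x + B x 0 := by rw [add_zero]; exact h
    exact (add_left_cancel h2).symm
  have hzero : ∀ z, z ≠ 0 → ∑ x, sg (B x z) = 0 := by
    intro z hz
    obtain ⟨y, hy⟩ := hB' z hz
    have h1 : ∑ x, sg (B x z) = ∑ x, sg (B (x + y) z) :=
      (Fintype.sum_equiv (Equiv.addRight y) _ _ (fun x => rfl)).symm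
    have h2 : ∑ x, sg (B (x + y) z) = - ∑ x, sg (B x z) := by
      rw [← Finset.sum_neg_distrib]
      apply Finset.sum_congr rfl
      intro x _
      rw [hB, sg_add, hy]
      have : sg 1 = -1 := by simp [sg]
      rw [this]; ring
    linarith
  have h1 : (∑ x, sg (q x)) ^ 2 = ∑ z, sg (q z) * ∑ x, sg (B x z) := by
    calc (∑ x, sg (q x)) ^ 2 = ∑ x, ∑ y, sg (q x) * sg (q y) := by
          rw [sq, Finset.sum_mul_sum]
      _ = ∑ x, ∑ z, sg (q x) * sg (q (x + z)) := by
          apply Finset.sum_congr rfl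
          intro x _
          exact (Fintype.sum_equiv (Equiv.addLeft x) _ _ (fun z => rfl)).symm
      _ = ∑ z, ∑ x, sg (q x) * sg (q (x + z)) := Finset.sum_comm
      _ = ∑ z, sg (q z) * ∑ x, sg (B x z) := by
          apply Finset.sum_congr rfl
          intro z _
          rw [Finset.mul_sum]
          apply Finset.sum_congr rfl
          intro x _
          rw [← sg_add, ← sg_add, hq]
          congr 1
          calc q x + (q x + q z + B x z) = (q x + q x) + (q z + B x z) := by ring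
            _ = q z + B x z := by rw [hdbl, zero_add]
  rw [h1, Finset.sum_eq_single 0]
  · rw [hq0]
    have : ∀ x, sg (B x 0) = 1 := fun x => by rw [hx0]; simp [sg]
    simp only [this]
    simp [sg]
  · intro z _ hz
    rw [hzero z hz, mul_zero]
  · intro h
    exact absurd (Finset.mem_univ _) h


/-! ### mutually unbiased bases -/

theorem sg_zero : sg 0 = 1 := by simp [sg]

theorem sg_one : sg 1 = -1 := by simp [sg]

/-- bilinear version of `kform` -/
noncomputable def kbil {m : ℕ} (a : GaloisField 2 m) :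
    (GaloisField 2 m × ZMod 2) →ₗ[ZMod 2] (GaloisField 2 m × ZMod 2) →ₗ[ZMod 2] ZMod 2 :=
  LinearMap.mk₂ (ZMod 2) (kform a)
    (by
      intro x y z
      simp only [kform, Prod.fst_add, Prod.snd_add, mul_add, add_mul, map_add]
      ring)
    (by
      intro c x z
      simp only [kform, Prod.smul_fst, Prod.smul_snd, mul_smul_comm, smul_mul_assoc, map_smul,
        smul_eq_mul]
      ring)
    (by
      intro x y z
      simp only [kform, Prod.fst_add, Prod.snd_add, mul_add, add_mul, map_add]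
      ring)
    (by
      intro c x z
      simp only [kform, Prod.smul_fst, Prod.smul_snd, mul_smul_comm, smul_mul_assoc, map_smul,
        smul_eq_mul]
      ring)

theorem kform_symm {m : ℕ} (a : GaloisField 2 m) (X Y : GaloisField 2 m × ZMod 2) :
    kform a X Y = kform a Y X := by
  simp only [kform]
  rw [show a ^ 2 * X.1 * Y.1 = a ^ 2 * Y.1 * X.1 by ring]
  ring

/-- the pairing -/
noncomputable def kpair {m : ℕ} (c X : GaloisField 2 m × ZMod 2) : ZMod 2 :=
  Algebra.trace (ZMod 2) (GaloisField 2 m) (c.1 * X.1) + c.2 * X.2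

theorem kpair_add {m : ℕ} (c X Y : GaloisField 2 m × ZMod 2) :
    kpair c (X + Y) = kpair c X + kpair c Y := by
  simp only [kpair, Prod.fst_add, Prod.snd_add, mul_add, map_add]
  ring

theorem kpair_sub {m : ℕ} (c d X : GaloisField 2 m × ZMod 2) :
    kpair c X + kpair d X = kpair (c - d) X := by
  have h : ∀ a b : ZMod 2, a + b = a - b := by decide
  rw [h]
  simp only [kpair, Prod.fst_sub, Prod.snd_sub, sub_mul, map_sub]
  ring

theorem kpair_zero {m : ℕ} (X : GaloisField 2 m × ZMod 2) : kpair (0 : GaloisField 2 m × ZMod 2) X = 0 := by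
  simp [kpair]

theorem kpair_nondeg {m : ℕ} (d : GaloisField 2 m × ZMod 2) (hd : d ≠ 0) : ∃ X, kpair d X = 1 := by
  have h2 : ∀ a : ZMod 2, a ≠ 0 → a = 1 := by decide
  by_cases h1 : d.1 = 0
  · have h3 : d.2 ≠ 0 := fun h => hd (Prod.ext h1 h)
    refine ⟨(0, 1), ?_⟩
    simp [kpair, h2 _ h3]
  · have hnd := traceForm_nondegenerate (ZMod 2) (GaloisField 2 m)
    by_contra hcon
    push Not at hcon
    apply h1
    apply hnd.1 d.1
    intro x
    by_contra hx
    apply hcon (x, 0)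
    simp only [kpair, mul_zero, add_zero]
    exact h2 _ hx

theorem char_sum {m : ℕ} [Fintype (GaloisField 2 m)] (d : GaloisField 2 m × ZMod 2) (hd : d ≠ 0) :
    ∑ X : GaloisField 2 m × ZMod 2, sg (kpair d X) = 0 := by
  obtain ⟨X0, hX0⟩ := kpair_nondeg d hd
  have h1 : ∑ X : GaloisField 2 m × ZMod 2, sg (kpair d X)
      = ∑ X : GaloisField 2 m × ZMod 2, sg (kpair d (X + X0)) :=
    (Equiv.sum_comp (Equiv.addRight X0) (fun X => sg (kpair d X))).symm
  have h2 : ∑ X : GaloisField 2 m × ZMod 2, sg (kpair d (X + X0))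
      = - ∑ X : GaloisField 2 m × ZMod 2, sg (kpair d X) := by
    rw [← Finset.sum_neg_distrib]
    apply Finset.sum_congr rfl
    intro X _
    rw [kpair_add, hX0, sg_add, sg_one]
    ring
  linarith

theorem exists_MUB (t : ℕ) (ht : 1 ≤ t) :
    ∃ f : Fin (2 ^ (2 * t - 1)) → Fin (4 ^ t) → EuclideanSpace ℝ (Fin (4 ^ t)), IsMUB f := by
  classical
  set m := 2 * t - 1 with hm
  have hmodd : Odd m := ⟨t - 1, by omega⟩
  have hm0 : m ≠ 0 := by omega
  have : Fintype (GaloisField 2 m) := Fintype.ofFinite _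
  have hF : Fintype.card (GaloisField 2 m) = 2 ^ m := by
    rw [← Nat.card_eq_fintype_card, GaloisField.card 2 m hm0]
  have hV : Fintype.card (GaloisField 2 m × ZMod 2) = 4 ^ t := by
    rw [Fintype.card_prod, hF, ZMod.card, ← pow_succ, show m + 1 = 2 * t by omega, pow_mul]
    norm_num
  have hq : ∀ a : GaloisField 2 m, ∃ q : GaloisField 2 m × ZMod 2 → ZMod 2,
      ∀ x y, q (x + y) = q x + q y + kform a x y := by
    intro a
    exact exists_quad (kbil a) (fun x => kform_self hmodd a x)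
  choose q hq using hq
  let e : GaloisField 2 m × ZMod 2 ≃ Fin (4 ^ t) := Fintype.equivFinOfCardEq hV
  let g : GaloisField 2 m ≃ Fin (2 ^ m) := Fintype.equivFinOfCardEq hF
  refine ⟨fun r i => WithLp.toLp 2 (fun k =>
    sg (q (g.symm r) (e.symm k) + kpair (e.symm i) (e.symm k)) / 2 ^ t), ?_⟩
  have hinner : ∀ r s i j, inner ℝ
      ((fun r i => WithLp.toLp 2 (fun k =>
        sg (q (g.symm r) (e.symm k) + kpair (e.symm i) (e.symm k)) / 2 ^ t) :
        Fin (2 ^ m) → Fin (4 ^ t) → EuclideanSpace ℝ (Fin (4 ^ t))) r i)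
      ((fun r i => WithLp.toLp 2 (fun k =>
        sg (q (g.symm r) (e.symm k) + kpair (e.symm i) (e.symm k)) / 2 ^ t) :
        Fin (2 ^ m) → Fin (4 ^ t) → EuclideanSpace ℝ (Fin (4 ^ t))) s j)
      = (∑ X : GaloisField 2 m × ZMod 2,
          sg (q (g.symm r) X + q (g.symm s) X + kpair (e.symm i - e.symm j) X)) / 4 ^ t := by
    intro r s i j
    rw [PiLp.inner_apply, Finset.sum_div]
    rw [← Equiv.sum_comp e]
    apply Finset.sum_congr rfl
    intro X _
    simp only [Equiv.symm_apply_apply]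
    rw [← kpair_sub]
    simp only [RCLike.inner_apply, conj_trivial]
    rw [sg_add, sg_add, sg_add, sg_add, sg_add, show (4:ℝ) ^ t = 2 ^ t * 2 ^ t by
      rw [← mul_pow]; norm_num]
    field_simp
  refine ⟨?_, ?_⟩
  · intro r i j
    rw [hinner]
    have h0 : ∀ a : ZMod 2, a + a = 0 := by decide
    simp only [h0, zero_add]
    by_cases hij : i = j
    · subst hij
      rw [if_pos rfl, sub_self]
      simp only [kpair_zero, sg_zero, Finset.sum_const, Finset.card_univ, hV]
      rw [nsmul_eq_mul, mul_one]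
      push_cast
      rw [div_self (by positivity)]
    · rw [if_neg hij, char_sum _ (sub_ne_zero.mpr (fun h => hij (e.symm.injective h))), zero_div]
  · intro r s i j hrs
    rw [hinner]
    have hab : g.symm r ≠ g.symm s := fun h => hrs (g.symm.injective h)
    have hG := gauss_sum_sq (V := GaloisField 2 m × ZMod 2)
      (fun X Y => kform (g.symm r) X Y + kform (g.symm s) X Y)
      (by
        intro x y z
        have h1 : kform (g.symm r) (x + y) z = kform (g.symm r) x z + kform (g.symm r) y z :=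
          LinearMap.congr_fun ((kbil (g.symm r)).map_add x y) z
        have h2 : kform (g.symm s) (x + y) z = kform (g.symm s) x z + kform (g.symm s) y z :=
          LinearMap.congr_fun ((kbil (g.symm s)).map_add x y) z
        show kform (g.symm r) (x + y) z + kform (g.symm s) (x + y) z = _
        rw [h1, h2]
        ring)
      (by
        intro x hx
        obtain ⟨y, hy⟩ := kform_nondeg hmodd _ _ hab x hx
        refine ⟨y, ?_⟩
        show kform (g.symm r) y x + kform (g.symm s) y x = 1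
        rw [kform_symm _ y x, kform_symm _ y x]
        exact hy)
      (fun X => q (g.symm r) X + q (g.symm s) X + kpair (e.symm i - e.symm j) X)
      (by
        intro x y
        show q (g.symm r) (x + y) + q (g.symm s) (x + y) + kpair (e.symm i - e.symm j) (x + y) = _
        rw [hq, hq, kpair_add]
        ring)
    rw [div_pow, hG, hV]
    push_cast
    have h4 : (4:ℝ) ^ t ≠ 0 := by positivity
    field_simp


/-! ### fourth moments -/

/-- Parseval -/
theorem mub_parseval {n R : ℕ} (f : Fin R → Fin n → EuclideanSpace ℝ (Fin n))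
    (hf : IsMUB f) (v : EuclideanSpace ℝ (Fin n)) (r : Fin R) :
    ∑ i, (inner ℝ (f r i) v) ^ 2 = ‖v‖ ^ 2 := by
  have ho : Orthonormal ℝ (f r) := by
    rw [orthonormal_iff_ite]
    exact hf.1 r
  have hcard : Fintype.card (Fin n) = Module.finrank ℝ (EuclideanSpace ℝ (Fin n)) := by simp
  have hspan : ⊤ ≤ Submodule.span ℝ (Set.range (f r)) := by
    have := ho.linearIndependent.span_eq_top_of_card_eq_finrank' hcard
    rw [this]
  let b := OrthonormalBasis.mk ho hspan
  have h := b.sum_sq_norm_inner_right v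
  rw [← h]
  refine Finset.sum_congr rfl fun i _ => ?_
  simp [b]

/-- the double sum with inner products squared as coordinates -/
theorem quad_coord {n : ℕ} {ι : Type*} [Fintype ι] (x : ι → ℝ) (f : ι → EuclideanSpace ℝ (Fin n)) :
    ∑ p : Fin n × Fin n, (∑ a, x a * (f a p.1 * f a p.2)) ^ 2
      = ∑ a, ∑ b, x a * x b * (inner ℝ (f a) (f b)) ^ 2 := by
  have h1 : ∀ p : Fin n × Fin n, (∑ a, x a * (f a p.1 * f a p.2)) ^ 2
      = ∑ a, ∑ b, x a * x b * ((f a p.1 * f b p.1) * (f a p.2 * f b p.2)) := by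
    intro p
    rw [sq, Finset.sum_mul_sum]
    refine Finset.sum_congr rfl fun a _ => Finset.sum_congr rfl fun b _ => by ring
  simp_rw [h1]
  rw [Finset.sum_comm]
  refine Finset.sum_congr rfl fun a _ => ?_
  rw [Finset.sum_comm]
  refine Finset.sum_congr rfl fun b _ => ?_
  rw [← Finset.mul_sum]
  congr 1
  have h2 : inner ℝ (f a) (f b) = ∑ k, f a k * f b k := by
    rw [PiLp.inner_apply]
    refine Finset.sum_congr rfl fun k _ => by simp [mul_comm]
  rw [h2, sq, Finset.sum_mul_sum, Fintype.sum_prod_type]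

theorem coord_form {n : ℕ} {ι : Type*} [Fintype ι] (x : ι → ℝ) (f : ι → EuclideanSpace ℝ (Fin n))
    (v : EuclideanSpace ℝ (Fin n)) :
    ∑ p : Fin n × Fin n, (v p.1 * v p.2) * (∑ a, x a * (f a p.1 * f a p.2))
      = ∑ a, x a * (inner ℝ (f a) v) ^ 2 := by
  simp_rw [Finset.mul_sum]
  rw [Finset.sum_comm]
  refine Finset.sum_congr rfl fun a _ => ?_
  have h2 : inner ℝ (f a) v = ∑ k, f a k * v k := by
    rw [PiLp.inner_apply]
    refine Finset.sum_congr rfl fun k _ => by simp [mul_comm]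
  rw [h2, sq, Finset.sum_mul_sum, Fintype.sum_prod_type, Finset.mul_sum]
  refine Finset.sum_congr rfl fun k _ => ?_
  rw [Finset.mul_sum]
  refine Finset.sum_congr rfl fun l _ => by ring

theorem coord_norm {n : ℕ} (v : EuclideanSpace ℝ (Fin n)) :
    ∑ p : Fin n × Fin n, (v p.1 * v p.2) ^ 2 = (‖v‖ ^ 2) ^ 2 := by
  rw [EuclideanSpace.real_norm_sq_eq, sq (∑ i, _), Finset.sum_mul_sum, Fintype.sum_prod_type]
  refine Finset.sum_congr rfl fun k _ => Finset.sum_congr rfl fun l _ => by ring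

/-- fourth moments of mutually unbiased bases -/
theorem mub_l1 {n R : ℕ} (hn : 1 ≤ n) (f : Fin R → Fin n → EuclideanSpace ℝ (Fin n))
    (hf : IsMUB f) (v : EuclideanSpace ℝ (Fin n)) :
    (R : ℝ) ^ 3 * ‖v‖ ^ 2 ≤
      (1 + R / n : ℝ) * (∑ r, ∑ i, |inner ℝ (f r i) v|) ^ 2 := by
  have hn0 : (0 : ℝ) < n := by exact_mod_cast hn
  set N : ℝ := ‖v‖ ^ 2 with hN
  have hN0 : 0 ≤ N := by positivity
  let F : Fin R × Fin n → EuclideanSpace ℝ (Fin n) := fun a => f a.1 a.2
  let c : Fin R × Fin n → ℝ := fun a => inner ℝ (F a) v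
  let x : Fin R × Fin n → ℝ := fun a => c a ^ 2 - N / n
  have hP : ∀ r : Fin R, ∑ i, c (r, i) ^ 2 = N := fun r => mub_parseval f hf v r
  have hx0 : ∀ r : Fin R, ∑ i, x (r, i) = 0 := by
    intro r
    simp only [x]
    rw [Finset.sum_sub_distrib, hP r]
    simp
    field_simp
    ring
  have hc2 : ∑ a, c a ^ 2 = R * N := by
    rw [Fintype.sum_prod_type]
    simp_rw [hP]
    simp
  have hxsum : ∑ a, x a = 0 := by
    rw [Fintype.sum_prod_type]
    simp_rw [hx0]
    simp
  -- sum x^2 = sum x c^2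
  have hxc : ∑ a, x a ^ 2 = ∑ a, x a * c a ^ 2 := by
    have : ∀ a, x a ^ 2 = x a * c a ^ 2 - (N / n) * x a := by
      intro a; simp only [x]; ring
    simp_rw [this]
    rw [Finset.sum_sub_distrib, ← Finset.mul_sum, hxsum]
    ring
  have hquad : ∑ a, ∑ b, x a * x b * (inner ℝ (F a) (F b)) ^ 2 = ∑ a, x a ^ 2 := by
    refine Finset.sum_congr rfl fun a _ => ?_
    obtain ⟨r, i⟩ := a
    rw [Fintype.sum_prod_type, Finset.sum_eq_single r]
    · rw [Finset.sum_eq_single i]
      · simp only [F]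
        rw [hf.1 r i i]
        simp
        ring
      · intro j _ hj
        simp only [F]
        rw [hf.1 r i j, if_neg (Ne.symm hj)]
        ring
      · simp
    · intro s _ hs
      have : ∀ j, x (r, i) * x (s, j) * (inner ℝ (F (r, i)) (F (s, j))) ^ 2
          = (x (r, i) * (1 / n)) * x (s, j) := by
        intro j
        simp only [F]
        rw [hf.2 r s i j (Ne.symm hs)]
        ring
      simp_rw [this]
      rw [← Finset.mul_sum, hx0]
      ring
    · simp
  have hX0 : 0 ≤ ∑ a, x a ^ 2 := Finset.sum_nonneg fun a _ => sq_nonneg _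
  have hXX : (∑ a, x a ^ 2) ^ 2 ≤ N ^ 2 * ∑ a, x a ^ 2 := by
    have hcs := Finset.sum_mul_sq_le_sq_mul_sq (Finset.univ : Finset (Fin n × Fin n))
      (fun p => v p.1 * v p.2) (fun p => ∑ a, x a * (F a p.1 * F a p.2))
    rw [coord_form x F v, coord_norm v, quad_coord x F, hquad] at hcs
    rw [← hxc] at hcs
    exact hcs
  have hXN : ∑ a, x a ^ 2 ≤ N ^ 2 := by
    rcases hX0.eq_or_lt with h | h
    · rw [← h]; positivity
    · have : (∑ a, x a ^ 2) * (∑ a, x a ^ 2) ≤ N ^ 2 * ∑ a, x a ^ 2 := by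
        rw [← sq]; exact hXX
      exact le_of_mul_le_mul_right this h
  have hc4 : ∑ a, c a ^ 4 ≤ (1 + R / n) * N ^ 2 := by
    have h1 : ∀ a, c a ^ 4 = x a ^ 2 + 2 * (N / n) * x a + (N / n) ^ 2 := by
      intro a; simp only [x]; ring
    simp_rw [h1]
    rw [Finset.sum_add_distrib, Finset.sum_add_distrib, ← Finset.mul_sum, hxsum]
    simp only [Finset.sum_const, Finset.card_univ, Fintype.card_prod, Fintype.card_fin,
      nsmul_eq_mul, Nat.cast_mul]
    have : (R : ℝ) * n * (N / n) ^ 2 = R / n * N ^ 2 := by field_simp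
    rw [this]
    nlinarith
  -- Hölder
  have hH : (∑ a, c a ^ 2) ^ 3 ≤ (∑ a, |c a|) ^ 2 * ∑ a, c a ^ 4 := by
    set A := ∑ a, |c a| with hA
    set B := ∑ a, c a ^ 2 with hB
    set C := ∑ a, |c a| ^ 3 with hC
    set D := ∑ a, c a ^ 4 with hD
    have hA0 : 0 ≤ A := Finset.sum_nonneg fun a _ => abs_nonneg _
    have hB0 : 0 ≤ B := Finset.sum_nonneg fun a _ => sq_nonneg _
    have hC0 : 0 ≤ C := Finset.sum_nonneg fun a _ => by positivity
    have hD0 : 0 ≤ D := Finset.sum_nonneg fun a _ => by positivity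
    have h1 : B ^ 2 ≤ A * C := by
      refine Finset.sum_sq_le_sum_mul_sum_of_sq_le_mul _ (fun a _ => abs_nonneg _)
        (fun a _ => by positivity) ?_
      intro a _
      have : |c a| * |c a| ^ 3 = (|c a| ^ 2) ^ 2 := by ring
      rw [this, sq_abs]
    have h2 : C ^ 2 ≤ B * D := by
      refine Finset.sum_sq_le_sum_mul_sum_of_sq_le_mul _ (fun a _ => sq_nonneg _)
        (fun a _ => by positivity) ?_
      intro a _
      have h : c a ^ 2 = |c a| ^ 2 := (sq_abs _).symm
      have h' : c a ^ 4 = |c a| ^ 4 := by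
        have : c a ^ 4 = (c a ^ 2) ^ 2 := by ring
        rw [this, h]; ring
      exact le_of_eq (by rw [h, h']; ring)
    rcases hB0.eq_or_lt with h | h
    · rw [← h, zero_pow (by norm_num)]; positivity
    · have h3 : B ^ 4 ≤ A ^ 2 * C ^ 2 := by
        have := mul_self_le_mul_self (by positivity) h1
        nlinarith
      have h4 : B ^ 4 ≤ A ^ 2 * (B * D) := h3.trans (mul_le_mul_of_nonneg_left h2 (by positivity))
      have h5 : B * B ^ 3 ≤ B * (A ^ 2 * D) := by nlinarith
      exact le_of_mul_le_mul_left h5 h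
  have hA : ∑ r, ∑ i, |inner ℝ (f r i) v| = ∑ a, |c a| := by
    rw [Fintype.sum_prod_type]
  rw [hA]
  rcases hN0.eq_or_lt with h | h
  · rw [← h]; simp; positivity
  · have h1 : (R * N) ^ 3 ≤ (∑ a, |c a|) ^ 2 * ((1 + R / n) * N ^ 2) := by
      rw [← hc2]
      exact hH.trans (mul_le_mul_of_nonneg_left hc4 (by positivity))
    have h2 : N ^ 2 * (R ^ 3 * N) ≤ N ^ 2 * ((1 + R / n) * (∑ a, |c a|) ^ 2) := by nlinarith
    exact le_of_mul_le_mul_left h2 (by positivity)


/-! ### zonoids -/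

/-- a point of a segment -/
theorem seg_form {E : Type*} [NormedAddCommGroup E] [InnerProductSpace ℝ E] {a b x : E}
    (h : x ∈ segment ℝ a b) : ∃ t : ℝ, 0 ≤ t ∧ t ≤ 1 ∧ x = a + t • (b - a) := by
  rw [segment_eq_image'] at h
  obtain ⟨t, ht, rfl⟩ := h
  exact ⟨t, ht.1, ht.2, rfl⟩

theorem zt_bounded {E : Type*} [NormedAddCommGroup E] [InnerProductSpace ℝ E] {m : ℕ}
    (a b : Fin m → E) : Bornology.IsBounded (∑ i, segment ℝ (a i) (b i)) := by
  refine (Metric.isBounded_closedBall (x := (0 : E)) (r := ∑ i, (‖a i‖ + ‖b i - a i‖))).subset ?_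
  intro x hx
  rw [Set.mem_fintype_sum] at hx
  obtain ⟨g, hg, rfl⟩ := hx
  rw [mem_closedBall_zero_iff]
  refine (norm_sum_le _ _).trans (Finset.sum_le_sum fun i _ => ?_)
  obtain ⟨t, ht0, ht1, h⟩ := seg_form (hg i)
  rw [h]
  refine (norm_add_le _ _).trans ?_
  rw [norm_smul, Real.norm_of_nonneg ht0]
  have := mul_le_mul_of_nonneg_right ht1 (norm_nonneg (b i - a i))
  linarith

theorem zt_nonempty {E : Type*} [NormedAddCommGroup E] [InnerProductSpace ℝ E] {m : ℕ}
    (a b : Fin m → E) : (∑ i, segment ℝ (a i) (b i)).Nonempty := by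
  refine ⟨∑ i, a i, ?_⟩
  rw [Set.mem_fintype_sum]
  exact ⟨a, fun i => left_mem_segment ℝ _ _, rfl⟩

theorem zt_upper {E : Type*} [NormedAddCommGroup E] [InnerProductSpace ℝ E] {m : ℕ}
    (a b : Fin m → E) {p p' : E} (hp : p ∈ ∑ i, segment ℝ (a i) (b i))
    (hp' : p' ∈ ∑ i, segment ℝ (a i) (b i)) (w : E) :
    inner ℝ w (p - p') ≤ ∑ l, |inner ℝ w (b l - a l)| := by
  rw [Set.mem_fintype_sum] at hp hp'
  obtain ⟨g, hg, rfl⟩ := hp
  obtain ⟨g', hg', rfl⟩ := hp'
  rw [← Finset.sum_sub_distrib, inner_sum]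
  refine Finset.sum_le_sum fun i _ => ?_
  obtain ⟨t, ht0, ht1, h⟩ := seg_form (hg i)
  obtain ⟨t', ht0', ht1', h'⟩ := seg_form (hg' i)
  have h2 : g i - g' i = (t - t') • (b i - a i) := by
    rw [h, h', sub_smul]; abel
  rw [h2, real_inner_smul_right]
  calc (t - t') * inner ℝ w (b i - a i) ≤ |(t - t') * inner ℝ w (b i - a i)| := le_abs_self _
    _ = |t - t'| * |inner ℝ w (b i - a i)| := abs_mul _ _
    _ ≤ 1 * |inner ℝ w (b i - a i)| := by
        refine mul_le_mul_of_nonneg_right ?_ (abs_nonneg _)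
        rw [abs_le]; constructor <;> linarith
    _ = _ := one_mul _

theorem zt_lower {E : Type*} [NormedAddCommGroup E] [InnerProductSpace ℝ E] {m : ℕ}
    (a b : Fin m → E) (w : E) : ∃ p ∈ ∑ i, segment ℝ (a i) (b i),
    ∃ p' ∈ ∑ i, segment ℝ (a i) (b i), inner ℝ w (p - p') = ∑ l, |inner ℝ w (b l - a l)| := by
  classical
  refine ⟨∑ i, (if 0 ≤ inner ℝ w (b i - a i) then b i else a i), ?_,
    ∑ i, (if 0 ≤ inner ℝ w (b i - a i) then a i else b i), ?_, ?_⟩
  · rw [Set.mem_fintype_sum]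
    refine ⟨_, fun i => ?_, rfl⟩
    split_ifs
    · exact right_mem_segment ℝ _ _
    · exact left_mem_segment ℝ _ _
  · rw [Set.mem_fintype_sum]
    refine ⟨_, fun i => ?_, rfl⟩
    split_ifs
    · exact left_mem_segment ℝ _ _
    · exact right_mem_segment ℝ _ _
  · rw [← Finset.sum_sub_distrib, inner_sum]
    refine Finset.sum_congr rfl fun i _ => ?_
    split_ifs with h
    · rw [abs_of_nonneg h]
    · push Not at h
      rw [abs_of_neg h, ← inner_neg_right, neg_sub]

/-- a zonoid inequality -/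
theorem zonoid_ineq {E : Type*} [NormedAddCommGroup E] [InnerProductSpace ℝ E]
    {Z : Set E} (hZ : IsZonoid Z) {ι κ : Type} [Fintype ι] [Fintype κ] (w : ι → E) (b : κ → E)
    (θ : ℝ) (hθ : 0 ≤ θ)
    (h : ∀ v : E, ∑ i, |inner ℝ (w i) v| ≤ θ * ∑ j, |inner ℝ (b j) v|)
    (z z' : ι → E) (hz : ∀ i, z i ∈ Z) (hz' : ∀ i, z' i ∈ Z) (c : κ → ℝ)
    (hc : ∀ j, ∀ x ∈ Z, |inner ℝ (b j) x| ≤ c j) :
    ∑ i, inner ℝ (w i) (z i - z' i) ≤ θ * ∑ j, 2 * c j := by
  obtain ⟨hZc, hZn, P, hP, hlim⟩ := hZ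
  set C : ℝ := ∑ i, 2 * ‖w i‖ + θ * ∑ j, 2 * ‖b j‖ with hC
  have hC0 : 0 ≤ C := by
    have h1 : 0 ≤ ∑ i, 2 * ‖w i‖ := Finset.sum_nonneg fun i _ => by positivity
    have h2 : 0 ≤ ∑ j, 2 * ‖b j‖ := Finset.sum_nonneg fun i _ => by positivity
    positivity
  have key : ∀ ε : ℝ, 0 < ε →
      ∑ i, inner ℝ (w i) (z i - z' i) ≤ θ * ∑ j, 2 * c j + C * ε := by
    intro ε hε
    obtain ⟨k, hk⟩ := ((tendsto_order.1 hlim).2 ε hε).exists
    obtain ⟨m, a, e, hPk⟩ := hP k
    rw [hPk] at hk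
    have hfin : Metric.hausdorffEDist (∑ i, segment ℝ (a i) (e i)) Z ≠ ⊤ :=
      Metric.hausdorffEDist_ne_top_of_nonempty_of_bounded (zt_nonempty a e) hZn
        (zt_bounded a e) hZc.isBounded
    have hdi : ∀ (u x y : E), dist x y < ε → inner ℝ u (x - y) ≤ ε * ‖u‖ := by
      intro u x y hxy
      calc inner ℝ u (x - y) ≤ ‖u‖ * ‖x - y‖ := real_inner_le_norm _ _
        _ ≤ ‖u‖ * ε := by
            refine mul_le_mul_of_nonneg_left ?_ (norm_nonneg _)
            rw [← dist_eq_norm]; exact hxy.le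
        _ = ε * ‖u‖ := mul_comm _ _
    have hb : ∀ j, ∑ l, |inner ℝ (b j) (e l - a l)| ≤ 2 * c j + ε * (2 * ‖b j‖) := by
      intro j
      obtain ⟨p, hp, p', hp', hpp⟩ := zt_lower a e (b j)
      obtain ⟨y, hy, hpy⟩ := Metric.exists_dist_lt_of_hausdorffDist_lt hp hk hfin
      obtain ⟨y', hy', hpy'⟩ := Metric.exists_dist_lt_of_hausdorffDist_lt hp' hk hfin
      have h1 := hdi (b j) _ _ hpy
      rw [dist_comm] at hpy'
      have h2 := hdi (b j) _ _ hpy'
      have h3 := (abs_le.1 (hc j y hy)).2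
      have h4 := (abs_le.1 (hc j y' hy')).1
      rw [← hpp]
      rw [inner_sub_right] at h1 h2 ⊢
      linarith
    have hw : ∀ i, inner ℝ (w i) (z i - z' i) ≤
        ∑ l, |inner ℝ (w i) (e l - a l)| + ε * (2 * ‖w i‖) := by
      intro i
      obtain ⟨p, hp, hpz⟩ := Metric.exists_dist_lt_of_hausdorffDist_lt' (hz i) hk hfin
      obtain ⟨p', hp', hpz'⟩ := Metric.exists_dist_lt_of_hausdorffDist_lt' (hz' i) hk hfin
      have h0 := zt_upper a e hp hp' (w i)
      rw [dist_comm] at hpz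
      have h1 := hdi (w i) _ _ hpz
      have h2 := hdi (w i) _ _ hpz'
      rw [inner_sub_right] at h0 h1 h2 ⊢
      linarith
    calc ∑ i, inner ℝ (w i) (z i - z' i)
        ≤ ∑ i, (∑ l, |inner ℝ (w i) (e l - a l)| + ε * (2 * ‖w i‖)) :=
          Finset.sum_le_sum fun i _ => hw i
      _ = ∑ l, ∑ i, |inner ℝ (w i) (e l - a l)| + ε * ∑ i, 2 * ‖w i‖ := by
          rw [Finset.sum_add_distrib, Finset.sum_comm, Finset.mul_sum]
      _ ≤ ∑ l, θ * ∑ j, |inner ℝ (b j) (e l - a l)| + ε * ∑ i, 2 * ‖w i‖ := by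
          gcongr with l _
          exact h _
      _ = θ * ∑ j, ∑ l, |inner ℝ (b j) (e l - a l)| + ε * ∑ i, 2 * ‖w i‖ := by
          rw [← Finset.mul_sum, Finset.sum_comm]
      _ ≤ θ * ∑ j, (2 * c j + ε * (2 * ‖b j‖)) + ε * ∑ i, 2 * ‖w i‖ := by
          gcongr with j _
          exact hb j
      _ = θ * ∑ j, 2 * c j + C * ε := by
          rw [Finset.sum_add_distrib, ← Finset.mul_sum _ _ ε, hC]
          ring
  refine le_of_forall_pos_le_add fun δ hδ => ?_
  have hC1 : 0 < C + 1 := by linarith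
  refine (key (δ / (C + 1)) (by positivity)).trans ?_
  have : C * (δ / (C + 1)) ≤ δ := by
    rw [mul_div_assoc', div_le_iff₀ hC1]
    nlinarith
  linarith


/-! ### sums of signs -/


/-- sum of signs -/
def ssum {n : ℕ} (ε : Fin n → Bool) : ℤ := ∑ i, (if ε i then (1:ℤ) else -1)

/-- total absolute value -/
def sA (n : ℕ) : ℤ := ∑ ε : Fin n → Bool, |ssum ε|

/-- number of balanced sign vectors -/
def sZ (n : ℕ) : ℤ := ∑ ε : Fin n → Bool, (if ssum ε = 0 then (1:ℤ) else 0)

theorem ssum_cons {n : ℕ} (b : Bool) (ε : Fin n → Bool) :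
    ssum (Fin.cons b ε : Fin (n+1) → Bool) = (if b then 1 else -1) + ssum ε := by
  unfold ssum
  rw [Fin.sum_univ_succ]
  simp [Fin.cons_zero, Fin.cons_succ]

theorem sA_succ (n : ℕ) : sA (n + 1) = 2 * sA n + 2 * sZ n := by
  unfold sA sZ
  rw [← (Fin.consEquiv (fun _ : Fin (n+1) => Bool)).sum_comp, Fintype.sum_prod_type,
    Fintype.sum_bool]
  have h1 : ∀ (b : Bool) (ε : Fin n → Bool),
      (Fin.consEquiv (fun _ : Fin (n+1) => Bool)) (b, ε) = (Fin.cons b ε : Fin (n+1) → Bool) :=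
    fun _ _ => rfl
  simp only [h1, ssum_cons]
  rw [← Finset.sum_add_distrib, Finset.mul_sum, Finset.mul_sum, ← Finset.sum_add_distrib]
  apply Finset.sum_congr rfl
  intro ε _
  generalize ssum ε = x
  simp only [if_true, Bool.false_eq_true, if_false]
  split_ifs with h
  · subst h; norm_num
  · rcases lt_or_gt_of_ne h with h' | h'
    · rw [abs_of_neg h', abs_of_nonpos (by omega), abs_of_neg (by omega)]; ring
    · rw [abs_of_pos h', abs_of_pos (by omega), abs_of_nonneg (by omega)]; ring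

theorem ssum_eq {n : ℕ} (ε : Fin n → Bool) :
    ssum ε = 2 * ((Finset.univ.filter (fun i => ε i = true)).card : ℤ) - n := by
  unfold ssum
  have h1 : ∀ i, (if ε i then (1:ℤ) else -1) = 2 * (if ε i = true then (1:ℤ) else 0) - 1 := by
    intro i
    split_ifs <;> norm_num
  simp only [h1]
  rw [Finset.sum_sub_distrib, ← Finset.mul_sum, Finset.sum_boole]
  simp

theorem sZ_odd (k : ℕ) : sZ (2 * k + 1) = 0 := by
  unfold sZ
  apply Finset.sum_eq_zero
  intro ε _
  rw [if_neg]
  rw [ssum_eq]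
  push_cast
  omega

theorem sZ_even (k : ℕ) : sZ (2 * k) = (Nat.centralBinom k : ℤ) := by
  unfold sZ
  rw [Finset.sum_boole, Nat.centralBinom_eq_two_mul_choose]
  have h1 : (Finset.univ.filter (fun ε : Fin (2*k) → Bool => ssum ε = 0)).card =
      (Finset.powersetCard k (Finset.univ : Finset (Fin (2 * k)))).card := by
    apply Finset.card_nbij' (fun ε => Finset.univ.filter (fun i => ε i = true))
      (fun S i => decide (i ∈ S))
    · intro ε hε
      simp only [Finset.coe_filter, Finset.mem_univ, true_and, Set.mem_ofPred_eq] at hε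
      rw [ssum_eq] at hε
      simp only [Finset.mem_coe, Finset.mem_powersetCard, Finset.subset_univ, true_and]
      push_cast at hε
      omega
    · intro S hS
      simp only [Finset.mem_coe, Finset.mem_powersetCard, Finset.subset_univ, true_and] at hS
      simp only [Finset.coe_filter, Finset.mem_univ, true_and, Set.mem_ofPred_eq]
      rw [ssum_eq]
      simp [hS]
    · intro ε _
      ext i
      simp
    · intro S _
      ext i
      simp
  rw [h1, Finset.card_powersetCard]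
  simp

theorem sA_even (k : ℕ) : sA (2 * k) = 2 * k * (Nat.centralBinom k : ℤ) := by
  induction k with
  | zero => simp [sA, ssum]
  | succ k ih =>
    have h1 : 2 * (k + 1) = 2 * k + 1 + 1 := by ring
    rw [h1, sA_succ, sZ_odd, sA_succ, ih, sZ_even]
    have h2 := Nat.succ_mul_centralBinom_succ k
    have h3 : ((k : ℤ) + 1) * (Nat.centralBinom (k + 1) : ℤ) =
        2 * (2 * k + 1) * (Nat.centralBinom k : ℤ) := by exact_mod_cast h2
    push_cast
    linear_combination (-2) * h3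

theorem cB_bound (k : ℕ) : (Nat.centralBinom k : ℝ) ^ 2 * (3 * k + 1) ≤ 16 ^ k := by
  induction k with
  | zero => simp
  | succ k ih =>
    have h2 := Nat.succ_mul_centralBinom_succ k
    have h3 : ((k : ℝ) + 1) * (Nat.centralBinom (k + 1) : ℝ) =
        2 * (2 * k + 1) * (Nat.centralBinom k : ℝ) := by exact_mod_cast h2
    have hk : (0:ℝ) ≤ k := Nat.cast_nonneg k
    set C : ℝ := (Nat.centralBinom (k+1) : ℝ)
    set c : ℝ := (Nat.centralBinom k : ℝ)
    push_cast
    have h4 : ((k:ℝ) + 1) ^ 2 * (C ^ 2 * (3 * (k + 1) + 1)) ≤ ((k:ℝ) + 1) ^ 2 * 16 ^ (k + 1) := by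
      have h5 : ((k:ℝ) + 1) ^ 2 * (C ^ 2 * (3 * (k + 1) + 1)) =
          ((k + 1) * C) ^ 2 * (3 * k + 4) := by ring
      rw [h5, h3]
      have h6 : (2 * (2 * (k:ℝ) + 1) * c) ^ 2 * (3 * k + 4) =
          c ^ 2 * (4 * (2 * k + 1) ^ 2 * (3 * k + 4)) := by ring
      rw [h6]
      have h7 : 4 * (2 * (k:ℝ) + 1) ^ 2 * (3 * k + 4) ≤ 16 * (k + 1) ^ 2 * (3 * k + 1) := by
        nlinarith
      calc c ^ 2 * (4 * (2 * (k:ℝ) + 1) ^ 2 * (3 * k + 4))
          ≤ c ^ 2 * (16 * (k + 1) ^ 2 * (3 * k + 1)) := by gcongr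
        _ = 16 * (k + 1) ^ 2 * (c ^ 2 * (3 * k + 1)) := by ring
        _ ≤ 16 * (k + 1) ^ 2 * 16 ^ k := by gcongr
        _ = ((k:ℝ) + 1) ^ 2 * 16 ^ (k + 1) := by ring
    exact le_of_mul_le_mul_left h4 (by positivity)

/-- upper bound for the mean absolute value of a sum of `2k` signs -/
theorem sum_signs_le (k : ℕ) (hk : 1 ≤ k) :
    ∑ ε : Fin (2 * k) → Bool, |∑ i, (if ε i then (1:ℝ) else -1)| ≤
      2 ^ (2 * k) * Real.sqrt (2 / 3 * (2 * k)) := by
  have h1 : ∑ ε : Fin (2 * k) → Bool, |∑ i, (if ε i then (1:ℝ) else -1)| =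
      2 * k * (Nat.centralBinom k : ℝ) := by
    have h2 := sA_even k
    have h3 : ((sA (2 * k) : ℤ) : ℝ) = 2 * k * (Nat.centralBinom k : ℝ) := by
      rw [h2]; push_cast; ring
    rw [← h3]
    unfold sA ssum
    push_cast
    rfl
  rw [h1]
  have hk' : (1:ℝ) ≤ k := by exact_mod_cast hk
  have h4 := cB_bound k
  have h5 : (2 * k * (Nat.centralBinom k : ℝ)) ^ 2 ≤
      (2 ^ (2 * k) * Real.sqrt (2 / 3 * (2 * k))) ^ 2 := by
    rw [mul_pow ((2:ℝ) ^ (2 * k)), Real.sq_sqrt (by positivity)]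
    have h6 : ((2:ℝ) ^ (2 * k)) ^ 2 = 16 ^ k := by
      rw [← pow_mul, mul_comm (2 * k) 2, ← mul_assoc, pow_mul]
      norm_num
    rw [h6]
    have h7 : (3 * (k:ℝ) + 1) * (2 * k * (Nat.centralBinom k : ℝ)) ^ 2 ≤
        (3 * (k:ℝ) + 1) * (16 ^ k * (2 / 3 * (2 * k))) := by
      calc (3 * (k:ℝ) + 1) * (2 * k * (Nat.centralBinom k : ℝ)) ^ 2
          = 4 * (k:ℝ) ^ 2 * ((Nat.centralBinom k : ℝ) ^ 2 * (3 * k + 1)) := by ring
        _ ≤ 4 * (k:ℝ) ^ 2 * 16 ^ k := by gcongr
        _ ≤ (3 * (k:ℝ) + 1) * (16 ^ k * (2 / 3 * (2 * k))) := by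
          have h8 : (0:ℝ) < 16 ^ k := by positivity
          have h9 : (3 * (k:ℝ) + 1) * (16 ^ k * (2 / 3 * (2 * k))) - 4 * k ^ 2 * 16 ^ k =
            16 ^ k * (4 / 3 * k) := by ring
          have h10 : 0 ≤ (16:ℝ) ^ k * (4 / 3 * k) := by positivity
          linarith
    exact le_of_mul_le_mul_left h7 (by positivity)
  exact (pow_le_pow_iff_left₀ (by positivity) (by positivity) two_ne_zero).1 h5


/-! ### the cross-polytope -/


section aux

variable {E : Type*} [NormedAddCommGroup E] [InnerProductSpace ℝ E]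

/-- the symmetric zonotope with generators `g` -/
def Zs {ι : Type*} [Fintype ι] (g : ι → E) : Set E :=
  (fun t : ι → ℝ => ∑ i, t i • g i) '' (Set.pi Set.univ (fun _ => Set.Icc (-1 : ℝ) 1))

theorem mem_seg (g x : E) : x ∈ segment ℝ (-g) g ↔ ∃ t : ℝ, t ∈ Set.Icc (-1 : ℝ) 1 ∧ x = t • g := by
  constructor
  · rintro ⟨a, b, ha, hb, hab, rfl⟩
    refine ⟨b - a, ⟨by linarith, by linarith⟩, ?_⟩
    rw [smul_neg, sub_smul]
    abel
  · rintro ⟨t, ⟨h1, h2⟩, rfl⟩
    refine ⟨(1 - t) / 2, (1 + t) / 2, by linarith, by linarith, by ring, ?_⟩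
    rw [smul_neg, ← sub_eq_neg_add, ← sub_smul]
    congr 1
    ring

theorem Zs_eq {ι : Type*} [Fintype ι] (g : ι → E) : Zs g = ∑ i, segment ℝ (-g i) (g i) := by
  ext x
  rw [Set.mem_fintype_sum]
  constructor
  · rintro ⟨t, ht, rfl⟩
    refine ⟨fun i => t i • g i, fun i => ?_, rfl⟩
    rw [mem_seg]
    exact ⟨t i, ht i (Set.mem_univ _), rfl⟩
  · rintro ⟨f, hf, rfl⟩
    have hf' : ∀ i, ∃ t : ℝ, t ∈ Set.Icc (-1 : ℝ) 1 ∧ f i = t • g i := fun i =>
      (mem_seg _ _).1 (hf i)
    choose t ht hft using hf'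
    refine ⟨t, fun i _ => ht i, ?_⟩
    exact Finset.sum_congr rfl (fun i _ => (hft i).symm)

theorem Zs_zonotope {ι : Type*} [Fintype ι] (g : ι → E) : IsZonotope (Zs g) := by
  classical
  let e := Fintype.equivFin ι
  refine ⟨Fintype.card ι, fun k => -g (e.symm k), fun k => g (e.symm k), ?_⟩
  rw [Zs_eq]
  exact (Equiv.sum_comp e.symm (fun i => segment ℝ (-g i) (g i))).symm

theorem Zs_compact {ι : Type*} [Fintype ι] (g : ι → E) : IsCompact (Zs g) := by
  apply IsCompact.image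
  · exact isCompact_univ_pi (fun _ => isCompact_Icc)
  · fun_prop

theorem Zs_zonoid {ι : Type*} [Fintype ι] (g : ι → E) : IsZonoid (Zs g) := by
  refine ⟨Zs_compact g, ?_, fun _ => Zs g, fun _ => Zs_zonotope g, ?_⟩
  · refine ⟨_, fun _ => 0, fun i _ => ?_, rfl⟩
    constructor <;> norm_num
  · simp

theorem Zs_convex {ι : Type*} [Fintype ι] (g : ι → E) : Convex ℝ (Zs g) := by
  rintro _ ⟨s, hs, rfl⟩ _ ⟨t, ht, rfl⟩ a b ha hb hab
  refine ⟨fun i => a * s i + b * t i, fun i _ => ?_, ?_⟩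
  · have h1 := hs i (Set.mem_univ _)
    have h2 := ht i (Set.mem_univ _)
    constructor
    · have := mul_le_mul_of_nonneg_left h1.1 ha
      have := mul_le_mul_of_nonneg_left h2.1 hb
      simp only
      nlinarith
    · have := mul_le_mul_of_nonneg_left h1.2 ha
      have := mul_le_mul_of_nonneg_left h2.2 hb
      simp only
      nlinarith
  · simp only [Finset.smul_sum, add_smul, mul_smul, Finset.sum_add_distrib]

end aux

/-- the sign of a bit -/
def sgE (b : Bool) : ℝ := if b then 1 else -1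

theorem sgE_mul_self (b : Bool) : sgE b * sgE b = 1 := by cases b <;> simp [sgE]

theorem sgE_not (b : Bool) : sgE (!b) = -sgE b := by cases b <;> simp [sgE]

theorem sgE_mem (b : Bool) : sgE b ∈ Set.Icc (-1 : ℝ) 1 := by cases b <;> simp [sgE]

theorem sgE_orth {n : ℕ} (i j : Fin n) :
    ∑ ε : Fin n → Bool, sgE (ε i) * sgE (ε j) = if i = j then (2 : ℝ) ^ n else 0 := by
  split_ifs with h
  · subst h
    simp [sgE_mul_self]
  · have hinv : Function.Involutive (fun ε : Fin n → Bool => Function.update ε i (!ε i)) := by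
      intro ε
      simp
    have h1 := Equiv.sum_comp (Function.Involutive.toPerm _ hinv) (fun ε : Fin n → Bool => sgE (ε i) * sgE (ε j))
    have h2 : ∑ ε : Fin n → Bool, sgE (((Function.Involutive.toPerm _ hinv) ε) i) * sgE (((Function.Involutive.toPerm _ hinv) ε) j) =
        -∑ ε : Fin n → Bool, sgE (ε i) * sgE (ε j) := by
      rw [← Finset.sum_neg_distrib]
      apply Finset.sum_congr rfl
      intro ε _
      have e1 : ((Function.Involutive.toPerm _ hinv) ε) i = !ε i := by simp [Function.Involutive.toPerm]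
      have e2 : ((Function.Involutive.toPerm _ hinv) ε) j = ε j := by
        simp [Function.Involutive.toPerm, Function.update_of_ne (Ne.symm h)]
      rw [e1, e2, sgE_not]
      ring
    rw [h2] at h1
    linarith

/-- the constant -/
noncomputable def th (n : ℕ) : ℝ := (∑ ε : Fin n → Bool, |∑ i, sgE (ε i)|) / 2 ^ n

theorem one_le_th (n : ℕ) (hn : 1 ≤ n) : 1 ≤ th n := by
  unfold th
  rw [le_div_iff₀ (by positivity), one_mul]
  let i0 : Fin n := ⟨0, hn⟩
  calc (2 : ℝ) ^ n = ∑ i : Fin n, (if i0 = i then (2 : ℝ) ^ n else 0) := by simp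
    _ = ∑ i : Fin n, ∑ ε : Fin n → Bool, sgE (ε i0) * sgE (ε i) := by
        apply Finset.sum_congr rfl
        intro i _
        rw [sgE_orth]
    _ = ∑ ε : Fin n → Bool, ∑ i : Fin n, sgE (ε i0) * sgE (ε i) := Finset.sum_comm
    _ ≤ ∑ ε : Fin n → Bool, |∑ i, sgE (ε i)| := by
        apply Finset.sum_le_sum
        intro ε _
        rw [← Finset.mul_sum]
        have h1 := sgE_mem (ε i0)
        rw [Set.mem_Icc, ← abs_le] at h1
        calc sgE (ε i0) * ∑ i, sgE (ε i) ≤ |sgE (ε i0) * ∑ i, sgE (ε i)| := le_abs_self _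
          _ = |sgE (ε i0)| * |∑ i, sgE (ε i)| := abs_mul _ _
          _ ≤ 1 * |∑ i, sgE (ε i)| := mul_le_mul_of_nonneg_right h1 (abs_nonneg _)
          _ = _ := one_mul _

/-- generators -/
noncomputable def gen (n : ℕ) (ε : Fin n → Bool) : EuclideanSpace ℝ (Fin n) :=
  WithLp.toLp 2 (fun j => sgE (ε j) / 2 ^ n)

theorem comb_apply (n : ℕ) (t : (Fin n → Bool) → ℝ) (j : Fin n) :
    (∑ ε, t ε • gen n ε) j = ∑ ε, t ε * (sgE (ε j) / 2 ^ n) := by
  rw [WithLp.ofLp_sum, Finset.sum_apply]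
  rfl

theorem cross_sub (n : ℕ) : crossPolytope n ⊆ Zs (gen n) := by
  apply convexHull_min _ (Zs_convex _)
  have key : ∀ i : Fin n, (∑ ε, sgE (ε i) • gen n ε) = EuclideanSpace.single i (1 : ℝ) := by
    intro i
    ext j
    rw [comb_apply]
    have : ∑ ε : Fin n → Bool, sgE (ε i) * (sgE (ε j) / 2 ^ n) =
        (∑ ε : Fin n → Bool, sgE (ε i) * sgE (ε j)) / 2 ^ n := by
      rw [Finset.sum_div]
      exact Finset.sum_congr rfl (fun ε _ => by ring)
    rw [this, sgE_orth]
    by_cases h : i = j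
    · subst h
      simp
    · simp [h, Ne.symm h]
  rintro x ⟨i, rfl | rfl⟩
  · exact ⟨fun ε => sgE (ε i), fun ε _ => sgE_mem _, key i⟩
  · refine ⟨fun ε => -sgE (ε i), fun ε _ => ?_, ?_⟩
    · have := sgE_mem (ε i)
      constructor
      · simp only; linarith [this.2]
      · simp only; linarith [this.1]
    · simp only [neg_smul, Finset.sum_neg_distrib]
      rw [key]

theorem sgE_mul (a b : Bool) : sgE a * sgE b = sgE (!(xor a b)) := by
  cases a <;> cases b <;> simp [sgE]

theorem l1_le (n : ℕ) (t : (Fin n → Bool) → ℝ) (ht : ∀ ε, t ε ∈ Set.Icc (-1 : ℝ) 1) :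
    ∑ j, |(∑ ε, t ε • gen n ε) j| ≤ th n := by
  set z : EuclideanSpace ℝ (Fin n) := ∑ ε, t ε • gen n ε with hz
  let s : Fin n → Bool := fun j => decide (0 ≤ z j)
  have h1 : ∀ j, |z j| = sgE (s j) * z j := by
    intro j
    by_cases h : 0 ≤ z j
    · simp [s, sgE, h, abs_of_nonneg h]
    · simp [s, sgE, h, abs_of_neg (not_le.1 h)]
  have hinv : Function.Involutive (fun ε : Fin n → Bool => fun i => !(xor (s i) (ε i))) := by
    intro ε
    funext i
    simp only
    cases s i <;> cases ε i <;> rfl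
  calc ∑ j, |z j| = ∑ j, sgE (s j) * ∑ ε, t ε * (sgE (ε j) / 2 ^ n) := by
        apply Finset.sum_congr rfl
        intro j _
        rw [h1, hz, comb_apply]
    _ = ∑ ε, t ε * (∑ j, sgE (s j) * sgE (ε j)) / 2 ^ n := by
        simp only [Finset.mul_sum, Finset.sum_div]
        rw [Finset.sum_comm]
        apply Finset.sum_congr rfl
        intro ε _
        apply Finset.sum_congr rfl
        intro j _
        ring
    _ ≤ ∑ ε : Fin n → Bool, |∑ j, sgE (s j) * sgE (ε j)| / 2 ^ n := by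
        apply Finset.sum_le_sum
        intro ε _
        apply div_le_div_of_nonneg_right _ (by positivity)
        have h2 := ht ε
        rw [Set.mem_Icc, ← abs_le] at h2
        calc t ε * (∑ j, sgE (s j) * sgE (ε j)) ≤ |t ε * (∑ j, sgE (s j) * sgE (ε j))| :=
              le_abs_self _
          _ = |t ε| * |∑ j, sgE (s j) * sgE (ε j)| := abs_mul _ _
          _ ≤ 1 * |∑ j, sgE (s j) * sgE (ε j)| := mul_le_mul_of_nonneg_right h2 (abs_nonneg _)
          _ = _ := one_mul _
    _ = ∑ ε : Fin n → Bool, |∑ j, sgE (((Function.Involutive.toPerm _ hinv) ε) j)| / 2 ^ n := by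
        apply Finset.sum_congr rfl
        intro ε _
        congr 2
        apply Finset.sum_congr rfl
        intro j _
        rw [sgE_mul]
        rfl
    _ = ∑ ε : Fin n → Bool, |∑ j, sgE (ε j)| / 2 ^ n :=
        Equiv.sum_comp (Function.Involutive.toPerm _ hinv) (fun ε : Fin n → Bool => |∑ j, sgE (ε j)| / 2 ^ n)
    _ = th n := by
        unfold th
        rw [Finset.sum_div]

theorem zero_mem_cross (n : ℕ) (hn : 1 ≤ n) : (0 : EuclideanSpace ℝ (Fin n)) ∈ crossPolytope n := by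
  let i0 : Fin n := ⟨0, hn⟩
  have h1 : EuclideanSpace.single i0 (1 : ℝ) ∈ crossPolytope n :=
    subset_convexHull ℝ _ ⟨i0, Or.inl rfl⟩
  have h2 : -EuclideanSpace.single i0 (1 : ℝ) ∈ crossPolytope n :=
    subset_convexHull ℝ _ ⟨i0, Or.inr rfl⟩
  have h3 := (convex_convexHull ℝ _) h1 h2 (by norm_num : (0 : ℝ) ≤ 1 / 2)
    (by norm_num : (0 : ℝ) ≤ 1 / 2) (by norm_num)
  have h4 : (1 / 2 : ℝ) • EuclideanSpace.single i0 (1 : ℝ) +
      (1 / 2 : ℝ) • (-EuclideanSpace.single i0 (1 : ℝ)) = 0 := by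
    rw [smul_neg, add_neg_cancel]
  rw [h4] at h3
  exact h3

theorem l1_ball_sub (n : ℕ) (hn : 1 ≤ n) (y : EuclideanSpace ℝ (Fin n)) (hy : ∑ j, |y j| ≤ 1) :
    y ∈ crossPolytope n := by
  let w : Option (Fin n) → ℝ := fun o => match o with
    | none => 1 - ∑ j, |y j|
    | some j => |y j|
  let p : Option (Fin n) → EuclideanSpace ℝ (Fin n) := fun o => match o with
    | none => 0
    | some j => if 0 ≤ y j then EuclideanSpace.single j (1 : ℝ)
        else -EuclideanSpace.single j (1 : ℝ)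
  have h := Convex.sum_mem (t := Finset.univ) (w := w) (z := p)
    (convex_convexHull ℝ {x : EuclideanSpace ℝ (Fin n) | ∃ i : Fin n,
      x = EuclideanSpace.single i (1 : ℝ) ∨ x = -EuclideanSpace.single i (1 : ℝ)})
    (by
      intro o _
      cases o with
      | none => simp only [w]; linarith
      | some j => exact abs_nonneg _)
    (by
      rw [Fintype.sum_option]
      simp only [w]
      ring)
    (by
      intro o _
      cases o with
      | none => exact zero_mem_cross n hn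
      | some j =>
        simp only [p]
        split_ifs
        · exact subset_convexHull ℝ _ ⟨j, Or.inl rfl⟩
        · exact subset_convexHull ℝ _ ⟨j, Or.inr rfl⟩)
  have h2 : ∑ o, w o • p o = y := by
    rw [Fintype.sum_option]
    simp only [w, p, smul_zero, zero_add]
    ext k
    rw [WithLp.ofLp_sum, Finset.sum_apply]
    rw [Finset.sum_eq_single k]
    · by_cases hk : 0 ≤ y k
      · simp [hk, abs_of_nonneg hk]
      · simp [hk, abs_of_neg (not_le.1 hk)]
    · intro j _ hjk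
      by_cases hj : 0 ≤ y j
      · simp [hj, Ne.symm hjk]
      · simp [hj, Ne.symm hjk]
    · intro h; exact absurd (Finset.mem_univ k) h
  rw [h2] at h
  exact h

theorem crossPolytope_mem (n : ℕ) (hn : 1 ≤ n) : th n ∈ zonoidRatios (crossPolytope n) := by
  have h1 := one_le_th n hn
  refine ⟨h1, Zs (gen n), Zs_zonoid _, cross_sub n, ?_⟩
  rintro _ ⟨t, ht, rfl⟩
  have hpos : 0 < th n := by linarith
  rw [Set.mem_smul_set_iff_inv_smul_mem₀ hpos.ne']
  apply l1_ball_sub n hn
  have h2 := l1_le n t (fun ε => ht ε (Set.mem_univ _))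
  have h3 : ∀ j, |((th n)⁻¹ • (∑ ε, t ε • gen n ε)) j| =
      (th n)⁻¹ * |(∑ ε, t ε • gen n ε) j| := by
    intro j
    rw [PiLp.smul_apply, smul_eq_mul, abs_mul, abs_of_pos (inv_pos.2 hpos)]
  simp only [h3]
  rw [← Finset.mul_sum, inv_mul_le_iff₀ hpos, mul_one]
  exact h2

/-- the cube-type zonotope shows `λ(C_n) ≤ E|ε_1 + ... + ε_n|` -/
theorem crossPolytope_le (n : ℕ) (hn : 1 ≤ n) :
    zonoidConst (crossPolytope n) ≤
      (∑ ε : Fin n → Bool, |∑ i, (if ε i then (1:ℝ) else -1)|) / 2 ^ n :=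
  csInf_le ⟨1, fun _ hc => hc.1⟩ (crossPolytope_mem n hn)

theorem norm_le_l1 (n : ℕ) (z : EuclideanSpace ℝ (Fin n)) : ‖z‖ ≤ ∑ j, |z j| := by
  have h : z = ∑ j, z j • EuclideanSpace.single j (1 : ℝ) := by
    ext k
    rw [WithLp.ofLp_sum, Finset.sum_apply, Finset.sum_eq_single k]
    · simp
    · intro j _ hjk
      simp [Ne.symm hjk]
    · intro h; exact absurd (Finset.mem_univ k) h
  calc ‖z‖ = ‖∑ j, z j • EuclideanSpace.single j (1 : ℝ)‖ := by rw [← h]
    _ ≤ ∑ j, ‖z j • EuclideanSpace.single j (1 : ℝ)‖ := norm_sum_le _ _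
    _ = ∑ j, |z j| := by
        apply Finset.sum_congr rfl
        intro j _
        rw [norm_smul, EuclideanSpace.norm_single, Real.norm_eq_abs, norm_one, mul_one]

/-- the set defining `λ(K)` is nonempty -/
theorem zonoidConst_nonempty (n : ℕ) (hn : 1 ≤ n) (K : Set (EuclideanSpace ℝ (Fin n)))
    (hK : IsSymmBody K) :
    {c : ℝ | 1 ≤ c ∧ ∃ Z : Set (EuclideanSpace ℝ (Fin n)), IsZonoid Z ∧ K ⊆ Z ∧ Z ⊆ c • K}.Nonempty := by
  obtain ⟨hcomp, hconv, ⟨x, hx⟩, hsym⟩ := hK
  -- the origin is interior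
  have hnegK : -K = K := by
    ext y
    constructor
    · intro hy
      have := hsym _ hy
      rwa [neg_neg] at this
    · intro hy
      exact hsym _ hy
  have hnx : -x ∈ interior K := by
    rw [← hnegK]
    have : interior (-K) = -interior K := by
      have := (Homeomorph.neg (EuclideanSpace ℝ (Fin n))).preimage_interior K
      exact this.symm
    rw [this]
    simpa using hx
  have h0 : (0 : EuclideanSpace ℝ (Fin n)) ∈ interior K := by
    have h := hconv.interior hx hnx (by norm_num : (0 : ℝ) ≤ 1 / 2)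
      (by norm_num : (0 : ℝ) ≤ 1 / 2) (by norm_num)
    have h4 : (1 / 2 : ℝ) • x + (1 / 2 : ℝ) • (-x) = 0 := by
      rw [smul_neg, add_neg_cancel]
    rwa [h4] at h
  obtain ⟨r, hr, hrK⟩ := Metric.nhds_basis_closedBall.mem_iff.1 (mem_interior_iff_mem_nhds.1 h0)
  obtain ⟨R, hR⟩ := hcomp.isBounded.subset_closedBall (0 : EuclideanSpace ℝ (Fin n))
  set R' : ℝ := max R 1 with hR'
  have hR'pos : 0 < R' := lt_of_lt_of_le one_pos (le_max_right _ _)
  have hR'K : ∀ y ∈ K, ‖y‖ ≤ R' := by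
    intro y hy
    have := hR hy
    rw [mem_closedBall_zero_iff] at this
    exact this.trans (le_max_left _ _)
  set c : ℝ := max 1 (R' * n / r) with hc
  have hc1 : 1 ≤ c := le_max_left _ _
  have hcpos : 0 < c := by linarith
  have happ : ∀ (t : Fin n → ℝ) (j : Fin n),
      (∑ i, t i • (R' • EuclideanSpace.single i (1 : ℝ) : EuclideanSpace ℝ (Fin n))) j =
        t j * R' := by
    intro t j
    rw [WithLp.ofLp_sum, Finset.sum_apply, Finset.sum_eq_single j]
    · simp
    · intro i _ hij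
      simp [Ne.symm hij]
    · intro h; exact absurd (Finset.mem_univ j) h
  refine ⟨c, hc1, Zs (fun i : Fin n => R' • EuclideanSpace.single i (1 : ℝ)), Zs_zonoid _, ?_, ?_⟩
  · intro y hy
    refine ⟨fun j => y j / R', fun j _ => ?_, ?_⟩
    · have h1 : |y j| ≤ R' := by
        have h2 := PiLp.norm_apply_le y j
        rw [Real.norm_eq_abs] at h2
        exact h2.trans (hR'K y hy)
      rw [Set.mem_Icc, ← abs_le, abs_div, abs_of_pos hR'pos, div_le_one hR'pos]
      exact h1
    · ext j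
      simp only
      rw [happ]
      field_simp
  · rintro _ ⟨t, ht, rfl⟩
    rw [Set.mem_smul_set_iff_inv_smul_mem₀ hcpos.ne']
    apply hrK
    rw [mem_closedBall_zero_iff, norm_smul, norm_inv, Real.norm_eq_abs, abs_of_pos hcpos,
      inv_mul_le_iff₀ hcpos]
    have h1 := norm_le_l1 n (∑ i, t i • (R' • EuclideanSpace.single i (1 : ℝ)))
    refine h1.trans ?_
    have h2 : ∀ j ∈ Finset.univ, |(∑ i, t i • (R' • EuclideanSpace.single i (1 : ℝ) :
        EuclideanSpace ℝ (Fin n))) j| ≤ R' := by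
      intro j _
      rw [happ, abs_mul, abs_of_pos hR'pos]
      have h3 := ht j (Set.mem_univ _)
      rw [Set.mem_Icc, ← abs_le] at h3
      calc |t j| * R' ≤ 1 * R' := mul_le_mul_of_nonneg_right h3 hR'pos.le
        _ = R' := one_mul _
    have h4 := Finset.sum_le_sum h2
    rw [Finset.sum_const, Finset.card_univ, Fintype.card_fin, nsmul_eq_mul] at h4
    refine h4.trans ?_
    have h5 : R' * n / r ≤ c := le_max_right _ _
    rw [div_le_iff₀ hr] at h5
    linarith


/-! ### the main construction -/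

section Final

variable {n R : ℕ}

/-- the hull of `± w`, `w` in a finite family -/
noncomputable def hullK {E : Type*} [NormedAddCommGroup E] [InnerProductSpace ℝ E] {ι : Type}
    (w : ι → E) : Set E :=
  convexHull ℝ (Set.range w ∪ Set.range (fun i => - w i))

theorem hullK_symm {E : Type*} [NormedAddCommGroup E] [InnerProductSpace ℝ E] {ι : Type}
    (w : ι → E) : ∀ x ∈ hullK w, -x ∈ hullK w := by
  intro x hx
  unfold hullK at *
  have h2 : - (Set.range w ∪ Set.range (fun i => - w i)) =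
      Set.range w ∪ Set.range (fun i => - w i) := by
    ext y
    simp only [Set.mem_neg, Set.mem_union, Set.mem_range]
    constructor
    · rintro (⟨i, hi⟩ | ⟨i, hi⟩)
      · right; exact ⟨i, by rw [hi, neg_neg]⟩
      · left; exact ⟨i, by rw [← neg_neg (w i), hi, neg_neg]⟩
    · rintro (⟨i, hi⟩ | ⟨i, hi⟩)
      · right; exact ⟨i, by rw [hi]⟩
      · left; exact ⟨i, by rw [← hi, neg_neg]⟩
  have h3 : x ∈ convexHull ℝ (- (Set.range w ∪ Set.range (fun i => - w i))) := by rwa [h2]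
  rw [convexHull_neg] at h3
  exact h3

theorem hullK_body {E : Type*} [NormedAddCommGroup E] [InnerProductSpace ℝ E]
    [FiniteDimensional ℝ E] {ι : Type} [Fintype ι] [Nonempty ι] (w : ι → E) (c : ℝ) (hc : 0 < c)
    (hw : ∀ v, c * ‖v‖ ≤ ∑ i, |inner ℝ (w i) v|) : IsSymmBody (hullK w) := by
  have hfin : (Set.range w ∪ Set.range (fun i => - w i)).Finite :=
    (Set.finite_range _).union (Set.finite_range _)
  have hcomp : IsCompact (hullK w) := hfin.isCompact_convexHull ℝ
  refine ⟨hcomp, convex_convexHull ℝ _, ?_, hullK_symm w⟩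
  have : CompleteSpace E := FiniteDimensional.complete ℝ E
  set C : ℝ := Fintype.card ι + 1 with hC
  have hC0 : 0 < C := by positivity
  have hball : Metric.ball (0 : E) (c / C) ⊆ hullK w := by
    intro x hx
    rw [mem_ball_zero_iff] at hx
    by_contra hxK
    obtain ⟨g, r, h1, h2⟩ := geometric_hahn_banach_closed_point (convex_convexHull ℝ _)
      hcomp.isClosed hxK
    set v : E := (InnerProductSpace.toDual ℝ E).symm g with hv
    have hg : ∀ y, g y = inner ℝ v y := by
      intro y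
      rw [hv, InnerProductSpace.toDual_symm_apply]
    have hr : ∀ i, |inner ℝ (w i) v| ≤ r := by
      intro i
      have e1 := h1 (w i) (subset_convexHull ℝ _ (Or.inl ⟨i, rfl⟩))
      have e2 := h1 (- w i) (subset_convexHull ℝ _ (Or.inr ⟨i, rfl⟩))
      rw [hg, real_inner_comm] at e1
      rw [hg, inner_neg_right, real_inner_comm] at e2
      rw [abs_le]
      constructor <;> linarith
    have h3 : c * ‖v‖ ≤ Fintype.card ι * r := by
      refine (hw v).trans ?_
      calc ∑ i, |inner ℝ (w i) v| ≤ ∑ _i : ι, r := Finset.sum_le_sum fun i _ => hr i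
        _ = Fintype.card ι * r := by simp
    have h4 : r < ‖v‖ * ‖x‖ := by
      rw [hg] at h2
      exact lt_of_lt_of_le h2 (real_inner_le_norm v x)
    have hvpos : 0 < ‖v‖ := by
      by_contra hv0
      have hv0' : ‖v‖ = 0 := le_antisymm (not_lt.1 hv0) (norm_nonneg v)
      rw [hv0', zero_mul] at h4
      rw [hv0', mul_zero] at h3
      have h0 : 0 < Fintype.card ι := Fintype.card_pos
      have : (0:ℝ) < Fintype.card ι := by exact_mod_cast h0
      nlinarith
    have h5 : (Fintype.card ι : ℝ) * r ≤ C * (‖v‖ * ‖x‖) := by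
      have h6 : (0:ℝ) ≤ Fintype.card ι := by positivity
      have h7 : 0 ≤ ‖v‖ * ‖x‖ := by positivity
      calc (Fintype.card ι : ℝ) * r ≤ Fintype.card ι * (‖v‖ * ‖x‖) := by gcongr
        _ ≤ C * (‖v‖ * ‖x‖) := by
          rw [hC]; nlinarith
    have h6 : C * (‖v‖ * ‖x‖) < c * ‖v‖ := by
      rw [lt_div_iff₀ hC0] at hx
      nlinarith
    linarith
  refine ⟨0, ?_⟩
  rw [mem_interior_iff_mem_nhds]
  exact Filter.mem_of_superset (Metric.ball_mem_nhds _ (by positivity)) hball

/-- the inner product with any point of the hull is controlled by the generators -/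
theorem hullK_inner_le {E : Type*} [NormedAddCommGroup E] [InnerProductSpace ℝ E] {ι : Type}
    (w : ι → E) (b : E) (c : ℝ) (h : ∀ i, |inner ℝ b (w i)| ≤ c) :
    ∀ x ∈ hullK w, |inner ℝ b x| ≤ c := by
  intro x hx
  have hsub : hullK w ⊆ {x : E | |inner ℝ b x| ≤ c} := by
    refine convexHull_min ?_ ?_
    · rintro y (⟨i, rfl⟩ | ⟨i, rfl⟩)
      · exact h i
      · show |inner ℝ b (- w i)| ≤ c
        rw [inner_neg_right, abs_neg]; exact h i
    · intro y hy z hz α β hα hβ hαβ
      show |inner ℝ b (α • y + β • z)| ≤ c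
      have hy' : |inner ℝ b y| ≤ c := hy
      have hz' : |inner ℝ b z| ≤ c := hz
      rw [inner_add_right, real_inner_smul_right, real_inner_smul_right]
      calc |α * inner ℝ b y + β * inner ℝ b z| ≤ |α * inner ℝ b y| + |β * inner ℝ b z| :=
            abs_add_le _ _
        _ = α * |inner ℝ b y| + β * |inner ℝ b z| := by
            rw [abs_mul, abs_mul, abs_of_nonneg hα, abs_of_nonneg hβ]
        _ ≤ α * c + β * c := by gcongr
        _ = c := by rw [← add_mul, hαβ, one_mul]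
  exact hsub hx

/-- lower bound for `λ` of the hull of a family of unit vectors that is incoherent with another
family -/
theorem zonoidConst_ge {E : Type*} [NormedAddCommGroup E] [InnerProductSpace ℝ E]
    {ι κ : Type} [Fintype ι] [Fintype κ] [Nonempty ι] (w : ι → E) (b : κ → E) (hw : ∀ i, ‖w i‖ = 1)
    (μ θ : ℝ) (hμ : 0 < μ) (hθ : 0 < θ) (hcard : Fintype.card κ ≤ Fintype.card ι)
    (hwb : ∀ i j, |inner ℝ (b j) (w i)| ≤ μ)
    (h : ∀ v : E, ∑ i, |inner ℝ (w i) v| ≤ θ * ∑ j, |inner ℝ (b j) v|)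
    (c : ℝ) (hc : 0 ≤ c) (Z : Set E) (hZ : IsZonoid Z) (h1 : hullK w ⊆ Z) (h2 : Z ⊆ c • hullK w) :
    1 / (μ * θ) ≤ c := by
  have hmem : ∀ i, w i ∈ hullK w := fun i => subset_convexHull ℝ _ (Or.inl ⟨i, rfl⟩)
  have hmem' : ∀ i, - w i ∈ hullK w := fun i => subset_convexHull ℝ _ (Or.inr ⟨i, rfl⟩)
  have key := zonoid_ineq hZ w b θ hθ.le h w (fun i => - w i) (fun i => h1 (hmem i))
    (fun i => h1 (hmem' i)) (fun _ => c * μ) (by
      intro j x hx
      obtain ⟨y, hy, rfl⟩ := h2 hx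
      show |inner ℝ (b j) (c • y)| ≤ c * μ
      rw [real_inner_smul_right, abs_mul, abs_of_nonneg hc]
      have := hullK_inner_le w (b j) μ (fun i => hwb i j) y hy
      gcongr)
  have e1 : ∀ i, inner ℝ (w i) (w i - - w i) = (2 : ℝ) := by
    intro i
    rw [sub_neg_eq_add, inner_add_right, real_inner_self_eq_norm_sq, hw i]; norm_num
  simp only [e1, Finset.sum_const, Finset.card_univ, nsmul_eq_mul] at key
  have hι : (0:ℝ) < Fintype.card ι := by exact_mod_cast Fintype.card_pos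
  have hκ : (Fintype.card κ : ℝ) ≤ Fintype.card ι := by exact_mod_cast hcard
  have h3 : (Fintype.card ι : ℝ) * 2 ≤ θ * (Fintype.card ι * (2 * (c * μ))) := by
    refine key.trans ?_
    gcongr
  have h4 : 1 ≤ θ * (c * μ) := by
    have h5 : (Fintype.card ι : ℝ) * 2 * 1 ≤ (Fintype.card ι : ℝ) * 2 * (θ * (c * μ)) := by
      nlinarith
    exact le_of_mul_le_mul_left h5 (by positivity)
  rw [div_le_iff₀ (by positivity)]
  nlinarith

theorem main_lower_aux {n R : ℕ} (hn1 : 1 ≤ n) (hnR' : n = 2 * R) (q : ℝ) (hq5 : 5 ≤ q)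
    (hqn : q ^ 2 = n) (f : Fin R → Fin n → EuclideanSpace ℝ (Fin n)) (hf : IsMUB f) :
    ∃ K : Set (EuclideanSpace ℝ (Fin n)), IsSymmBody K ∧
      ∀ c : ℝ, 1 ≤ c → ∀ Z : Set (EuclideanSpace ℝ (Fin n)), IsZonoid Z → K ⊆ Z →
        Z ⊆ c • K → q - 10 ≤ c := by
  classical
  have hnR : (n : ℝ) = 2 * R := by rw [hnR']; push_cast; ring
  have hn0 : (0:ℝ) < n := by exact_mod_cast hn1
  have hR0 : (0:ℝ) < R := by linarith
  have hq0 : 0 < q := by linarith
  let e : (Fin R × Fin n) ≃ Fin (R * n) := finProdFinEquiv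
  let F : (Fin R × Fin n) → EuclideanSpace ℝ (Fin n) := fun p => f p.1 p.2
  have hFn : ∀ p, ‖F p‖ = 1 := by
    intro p
    have h := hf.1 p.1 p.2 p.2
    rw [if_pos rfl, real_inner_self_eq_norm_sq] at h
    have h0 := norm_nonneg (f p.1 p.2)
    show ‖f p.1 p.2‖ = 1
    nlinarith
  obtain ⟨σ0, hσ1, hσ2, hσ3⟩ := exists_signing (fun i => F (e.symm i)) (fun i => hFn _)
  let σ : (Fin R × Fin n) → ℝ := fun p => σ0 (e p)
  have hσ1' : ∀ p, σ p = 1 ∨ σ p = -1 := fun p => hσ1 _
  have hσ2' : 0 ≤ ∑ p, σ p := by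
    rw [← Equiv.sum_comp e.symm]; simpa [σ] using hσ2
  set D : ℝ := 71 / 50 * q ^ 2 with hD
  have hσ3' : ∀ v, abs (∑ p, σ p * |inner ℝ (F p) v|) ≤ D * ‖v‖ := by
    intro v
    have h1 := hσ3 v
    rw [← Equiv.sum_comp e.symm (fun p => σ p * |inner ℝ (F p) v|)]
    have h2 : 2 * Real.sqrt ((R * n : ℕ) : ℝ) ≤ D := by
      have h3 : ((R * n : ℕ) : ℝ) = (q ^ 2) ^ 2 / 2 := by
        push_cast
        rw [hqn]
        have : (R : ℝ) = n / 2 := by linarith
        rw [this]; ring
      rw [h3]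
      have h4 : Real.sqrt ((q ^ 2) ^ 2 / 2) ≤ D / 2 := by
        apply Real.sqrt_le_iff.2
        constructor
        · positivity
        · rw [hD]; nlinarith [sq_nonneg (q ^ 2)]
      linarith
    have h5 : 2 * Real.sqrt ((R * n : ℕ) : ℝ) * ‖v‖ ≤ D * ‖v‖ := by gcongr
    refine le_trans ?_ (h1.trans h5)
    simp [σ]
  set s : ℝ := 2 / 7 * q ^ 3 with hs
  have hSs : ∀ v, s * ‖v‖ ≤ ∑ p, |inner ℝ (F p) v| := by
    intro v
    have h1 := mub_l1 hn1 f hf v
    have h2 : (∑ r, ∑ i, |inner ℝ (f r i) v|) = ∑ p, |inner ℝ (F p) v| := by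
      rw [Fintype.sum_prod_type]
    rw [h2] at h1
    have h3 : (R : ℝ) / n = 1 / 2 := by rw [hnR]; field_simp
    rw [h3] at h1
    have hS0 : 0 ≤ ∑ p, |inner ℝ (F p) v| := Finset.sum_nonneg fun _ _ => abs_nonneg _
    have h4 : (R : ℝ) = q ^ 2 / 2 := by rw [hqn]; linarith
    rw [h4] at h1
    apply le_of_sq_le_sq _ hS0
    rw [hs]
    have h5 : 0 ≤ (q ^ 3) ^ 2 * ‖v‖ ^ 2 := by positivity
    nlinarith
  have hsD : D < s := by
    rw [hD, hs]
    have : q ^ 2 * 5 ≤ q ^ 3 := by nlinarith [sq_nonneg q]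
    have h2 : 0 < q ^ 2 := by positivity
    nlinarith
  have hD0 : 0 < D := by positivity
  let ι := {p : Fin R × Fin n // σ p = 1}
  let κ := {p : Fin R × Fin n // ¬ σ p = 1}
  have split1 : ∀ g : Fin R × Fin n → ℝ, (∑ i : ι, g i) + ∑ j : κ, g j = ∑ p, g p :=
    fun g => Fintype.sum_subtype_add_sum_subtype (fun p => σ p = 1) g
  have split2 : ∀ g : Fin R × Fin n → ℝ, (∑ i : ι, g i) - ∑ j : κ, g j = ∑ p, σ p * g p := by
    intro g
    rw [← split1 (fun p => σ p * g p)]
    have e1 : ∑ i : ι, σ i * g i = ∑ i : ι, g i := by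
      apply Finset.sum_congr rfl
      intro i _
      rw [i.2, one_mul]
    have e2 : ∑ j : κ, σ j * g j = - ∑ j : κ, g j := by
      rw [← Finset.sum_neg_distrib]
      apply Finset.sum_congr rfl
      intro j _
      have : σ j = -1 := (hσ1' j).resolve_left j.2
      rw [this]; ring
    rw [e1, e2]; ring
  have hcard : Fintype.card κ ≤ Fintype.card ι := by
    have h1 := split2 (fun _ => 1)
    simp only [Finset.sum_const, Finset.card_univ, nsmul_eq_mul, mul_one] at h1
    have h2 : (Fintype.card κ : ℝ) ≤ Fintype.card ι := by linarith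
    exact_mod_cast h2
  have hne : Nonempty ι := by
    have h1 := split1 (fun _ => 1)
    simp only [Finset.sum_const, Finset.card_univ, nsmul_eq_mul, mul_one, Fintype.card_prod,
      Fintype.card_fin] at h1
    have h2 : (Fintype.card κ : ℝ) ≤ Fintype.card ι := by exact_mod_cast hcard
    have h3 : (0:ℝ) < Fintype.card ι := by
      have : (0:ℝ) < ((R * n : ℕ) : ℝ) := by push_cast; positivity
      push_cast at h1 this
      linarith
    exact Fintype.card_pos_iff.1 (by exact_mod_cast h3)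
  let w : ι → EuclideanSpace ℝ (Fin n) := fun i => F i
  let b : κ → EuclideanSpace ℝ (Fin n) := fun j => F j
  have hWB : ∀ v, (∑ i, |inner ℝ (w i) v|) + ∑ j, |inner ℝ (b j) v| = ∑ p, |inner ℝ (F p) v| :=
    fun v => split1 (fun p => |inner ℝ (F p) v|)
  have hWB' : ∀ v, (∑ i, |inner ℝ (w i) v|) - ∑ j, |inner ℝ (b j) v| =
      ∑ p, σ p * |inner ℝ (F p) v| := fun v => split2 (fun p => |inner ℝ (F p) v|)
  set θ : ℝ := (s + D) / (s - D) with hθ
  have hθ0 : 0 < θ := by
    rw [hθ]; apply div_pos <;> linarith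
  have hmain : ∀ v, ∑ i, |inner ℝ (w i) v| ≤ θ * ∑ j, |inner ℝ (b j) v| := by
    intro v
    have h1 := hWB v
    have h2 := hWB' v
    have h3 := (abs_le.1 (hσ3' v)).2
    have h4 := hSs v
    have h5 : 0 < s - D := by linarith
    have h6 : (s - D) * ∑ i, |inner ℝ (w i) v| ≤ (s + D) * ∑ j, |inner ℝ (b j) v| := by
      nlinarith
    rw [hθ, div_mul_eq_mul_div, le_div_iff₀ h5]
    linarith
  have hlow : ∀ v, (s - D) / 2 * ‖v‖ ≤ ∑ i, |inner ℝ (w i) v| := by
    intro v
    have h1 := hWB v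
    have h2 := hWB' v
    have h3 := (abs_le.1 (hσ3' v)).1
    have h4 := hSs v
    nlinarith
  refine ⟨hullK w, hullK_body w ((s - D) / 2) (by linarith) hlow, ?_⟩
  intro c hc Z hZ h1 h2
  have hwb : ∀ i j, |inner ℝ (b j) (w i)| ≤ 1 / q := by
    intro i j
    have hij : (j : Fin R × Fin n) ≠ i := by
      intro h
      have := j.2
      rw [h] at this
      exact this i.2
    have hinner : (inner ℝ (F j) (F i)) ^ 2 ≤ 1 / (n : ℝ) := by
      by_cases hr : (j : Fin R × Fin n).1 = (i : Fin R × Fin n).1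
      · have h3 := hf.1 (i : Fin R × Fin n).1 (j : Fin R × Fin n).2 (i : Fin R × Fin n).2
        have h4 : (j : Fin R × Fin n).2 ≠ (i : Fin R × Fin n).2 := by
          intro h; exact hij (Prod.ext hr h)
        rw [if_neg h4] at h3
        have h5 : inner ℝ (F j) (F i) = (0:ℝ) := by
          show inner ℝ (f _ _) (f _ _) = (0:ℝ)
          rw [hr]; exact h3
        rw [h5, zero_pow (by norm_num)]; exact div_nonneg zero_le_one hn0.le
      · have h3 := hf.2 _ _ (j : Fin R × Fin n).2 (i : Fin R × Fin n).2 hr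
        show (inner ℝ (f _ _) (f _ _)) ^ 2 ≤ 1 / (n : ℝ)
        rw [h3]
    rw [← hqn] at hinner
    apply abs_le_of_sq_le_sq _ (by positivity)
    rw [div_pow, one_pow]
    exact hinner
  have key := zonoidConst_ge w b (fun i => hFn i) (1 / q) θ (by positivity) hθ0 hcard hwb hmain c
    (by linarith) Z hZ h1 h2
  refine le_trans ?_ key
  have h5 : 0 < s - D := by linarith
  have h6 : 0 < s + D := by linarith
  have e1 : 1 / (1 / q * θ) = q * (s - D) / (s + D) := by
    rw [hθ]; field_simp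
  rw [e1, le_div_iff₀ h6, hs, hD]
  nlinarith [sq_nonneg q, sq_nonneg (q ^ 2), pow_pos hq0 3]

theorem main_lower (t : ℕ) (ht : 3 ≤ t) :
    ∃ K : Set (EuclideanSpace ℝ (Fin (4 ^ t))), IsSymmBody K ∧
      ∀ c : ℝ, 1 ≤ c → ∀ Z : Set (EuclideanSpace ℝ (Fin (4 ^ t))), IsZonoid Z → K ⊆ Z →
        Z ⊆ c • K → (2:ℝ) ^ t - 10 ≤ c := by
  obtain ⟨f, hf⟩ := exists_MUB t (by omega)
  refine main_lower_aux (Nat.one_le_pow _ _ (by norm_num)) ?_ (2 ^ t) ?_ ?_ f hf
  · rw [show (4:ℕ) = 2 ^ 2 by norm_num, ← pow_mul, ← pow_succ']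
    congr 1; omega
  · have : (2:ℝ) ^ 3 ≤ 2 ^ t := pow_le_pow_right₀ (by norm_num) ht
    linarith
  · push_cast
    rw [← pow_mul, mul_comm, pow_mul]; norm_num

/-- **Main theorem.** -/
theorem main (t : ℕ) (ht : 6 ≤ t) :
    ∃ K : Set (EuclideanSpace ℝ (Fin (4 ^ t))), IsSymmBody K ∧
      zonoidConst (crossPolytope (4 ^ t)) < zonoidConst K ∧ (2:ℝ) ^ t - 10 ≤ zonoidConst K := by
  obtain ⟨K, hK, hc⟩ := main_lower t (by omega)
  have hn1 : 1 ≤ 4 ^ t := Nat.one_le_pow _ _ (by norm_num)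
  have h1 : (2:ℝ) ^ t - 10 ≤ zonoidConst K := by
    apply le_csInf (zonoidConst_nonempty _ hn1 K hK)
    rintro c ⟨hc1, Z, hZ, hKZ, hZK⟩
    exact hc c hc1 Z hZ hKZ hZK
  refine ⟨K, hK, lt_of_lt_of_le ?_ h1, h1⟩
  have h2 := crossPolytope_le (4 ^ t) hn1
  have h3 : ∀ N : ℕ, N = 4 ^ t → (∑ ε : Fin N → Bool, |∑ i, (if ε i then (1:ℝ) else -1)|) / 2 ^ N ≤
      Real.sqrt (2 / 3 * (4 ^ t : ℕ)) := by
    intro N hN
    obtain ⟨k, hk, hk1⟩ : ∃ k, N = 2 * k ∧ 1 ≤ k := by
      refine ⟨2 ^ (2 * t - 1), ?_, Nat.one_le_two_pow⟩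
      rw [hN, show (4:ℕ) = 2 ^ 2 by norm_num, ← pow_mul, ← pow_succ']
      congr 1; omega
    subst hk
    have h4 := sum_signs_le k hk1
    rw [div_le_iff₀ (by positivity), ← hN]
    push_cast
    linarith
  have h5 := h2.trans (h3 _ rfl)
  refine lt_of_le_of_lt h5 ?_
  have h6 : (2:ℝ) ^ 6 ≤ 2 ^ t := pow_le_pow_right₀ (by norm_num) ht
  rw [Real.sqrt_lt' (by linarith)]
  have h7 : ((4 ^ t : ℕ) : ℝ) = (2 ^ t) ^ 2 := by
    push_cast
    rw [← pow_mul, mul_comm, pow_mul]; norm_num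
  rw [h7]
  nlinarith

end Final

/-- **The cross-polytope is not the worst body for zonoid approximation.**
For every `n = 4^t` with `t ≥ 6` there is an origin-symmetric convex body `K ⊆ ℝⁿ` with
`λ(K) > λ(C_n)`; moreover `λ(K) ≥ 2^t - 10 = √n - 10` (for comparison, John's theorem gives
`λ(K) ≤ √n` for all `K`, and `λ(C_n) ~ √(2n/π)`).  The sets of which `λ` is the infimum are
nonempty for both bodies. -/
theorem result :
    ∀ t : ℕ, 6 ≤ t → ∃ K : Set (EuclideanSpace ℝ (Fin (4 ^ t))), IsSymmBody K ∧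
      (zonoidRatios K).Nonempty ∧ (zonoidRatios (crossPolytope (4 ^ t))).Nonempty ∧
      zonoidConst (crossPolytope (4 ^ t)) < zonoidConst K ∧
      (2:ℝ) ^ t - 10 ≤ zonoidConst K := by
  intro t ht
  obtain ⟨K, hK, h1, h2⟩ := main t ht
  have hn1 : 1 ≤ 4 ^ t := Nat.one_le_pow _ _ (by norm_num)
  exact ⟨K, hK, zonoidConst_nonempty _ hn1 K hK, ⟨_, crossPolytope_mem _ hn1⟩, h1, h2⟩

end Pool.Agent.Results.MP_99e7cc_gt.CrossPolytopeNotExtremal
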